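import Pool.Agent.Y994.HS.HCurve

/-!
Half-plane: comparison of the time and the area of the neighbourhoods for the weak limits.
-/

set_option autoImplicit false

namespace Y994.HS

open H974 Finset H342P H984P H984H TH992.L Y994.MC Y994.MD MeasureTheory Filter Topology

theorem nat_time {n : ℕ} (hn : 0 < n) : (((n:ℝ) ^ (-(4/7) : ℝ)) ^ (7/4 : ℝ)) * n = 1 := by
  have hn' : (0:ℝ) < n := by exact_mod_cast hn
  rw [← Real.rpow_mul hn'.le]
  have e : (-(4/7) : ℝ) * (7/4) = -1 := by norm_num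
  rw [e, Real.rpow_neg_one, inv_mul_cancel₀ hn'.ne']

theorem meshH {c C : ℝ} (hc : 0 < c) (hC : 0 < C) (hL : LowA c (1/4)) (hU : TwoUp C (1/4)) :
    ∃ K : ℝ, 1 ≤ K ∧ ∀ R : ℕ, ∃ B : ℝ, 0 < B ∧ ∀ j : ℕ, ∃ n1 : ℕ, ∀ n : ℕ, n1 ≤ n →
      ∃ A : Set Conf, {ω | ‖curve n ω‖ ≤ R ∧ (curve n ω, (1:ℝ)) ∉ GE K j 2 8} ⊆ A ∧
        perc.real A ≤ B * (1/4) ^ j := by
  obtain ⟨Γ, K, hΓ, hK, hgood⟩ := goodPS_pr hc hC hL hU
  refine ⟨8 * K + 9, by linarith, fun R => ?_⟩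
  refine ⟨20 * (4 * (R:ℝ) + 7) ^ 2, by positivity, fun j => ?_⟩
  obtain ⟨x, hx⟩ : ∃ x : ℝ, x = (1/2:ℝ) ^ j := ⟨_, rfl⟩
  have hx0 : 0 < x := by rw [hx]; positivity
  have hx1 : x ≤ 1 := by rw [hx]; exact pow_le_one₀ (by norm_num) (by norm_num)
  have hΓr : (0:ℝ) < Γ := by exact_mod_cast hΓ
  have hΓ1 : (1:ℝ) ≤ Γ := by exact_mod_cast hΓ
  have hsc : Tendsto (fun n : ℕ => (n : ℝ) ^ (-(4/7) : ℝ)) atTop (𝓝 0) :=
    (tendsto_rpow_neg_atTop (by norm_num : (0:ℝ) < 4/7)).comp tendsto_natCast_atTop_atTop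
  obtain ⟨n1, hn1⟩ := eventually_atTop.mp ((hsc.eventually (ge_mem_nhds
    (show 0 < x / (6 * Γ) by positivity))).and (eventually_ge_atTop 1))
  refine ⟨n1, fun n hn => ?_⟩
  obtain ⟨hd1, hnp⟩ := hn1 n hn
  have hnp' : 0 < n := hnp
  have hnr : (0:ℝ) < n := by exact_mod_cast hnp'
  obtain ⟨δ, hδe⟩ : ∃ δ : ℝ, δ = (n : ℝ) ^ (-(4/7) : ℝ) := ⟨_, rfl⟩
  have hδ : 0 < δ := by rw [hδe]; exact Real.rpow_pos_of_pos hnr _
  have hδn : δ ^ (7/4 : ℝ) * n = 1 := by rw [hδe]; exact nat_time hnp'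
  rw [← hδe] at hd1
  have hd2 : 6 * (Γ * δ) ≤ x := by
    rw [le_div_iff₀ (by positivity)] at hd1
    linarith
  have hdx : δ ≤ x := by nlinarith
  obtain ⟨a, ha⟩ : ∃ a : ℕ, a = ⌊x / (Γ * δ)⌋₊ := ⟨_, rfl⟩
  have hxa : 6 ≤ x / (Γ * δ) := by
    rw [le_div_iff₀ (by positivity)]
    exact hd2
  have ha5 : 5 ≤ a := by
    rw [ha]
    exact Nat.le_floor (by push_cast; linarith)
  have ha1 : (a:ℝ) ≤ x / (Γ * δ) := by rw [ha]; exact Nat.floor_le (by positivity)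
  have ha2 : x / (Γ * δ) < (a:ℝ) + 1 := by rw [ha]; exact Nat.lt_floor_add_one _
  obtain ⟨W, hW⟩ : ∃ W : ℕ, W = Γ * a := ⟨_, rfl⟩
  have hW2 : 2 ≤ W := by
    rw [hW]
    nlinarith
  have hWr : (0:ℝ) < W := by
    have : 0 < W := by omega
    exact_mod_cast this
  have hwe : δ * (W:ℝ) = Γ * δ * a := by
    rw [hW]; push_cast; ring
  have hw2 : δ * (W:ℝ) ≤ x := by
    rw [hwe]
    rw [le_div_iff₀ (by positivity)] at ha1
    linarith
  have hw1 : x / 2 ≤ δ * (W:ℝ) := by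
    rw [hwe]
    rw [div_lt_iff₀ (by positivity)] at ha2
    nlinarith
  have hw0 : 0 < δ * (W:ℝ) := by positivity
  obtain ⟨M, hM⟩ : ∃ M : ℕ, M = ⌈2 * (R:ℝ) / x⌉₊ + 2 := ⟨_, rfl⟩
  have hR0 : (0:ℝ) ≤ R := Nat.cast_nonneg R
  have hM1 : 2 * (R:ℝ) / x + 2 ≤ M := by
    rw [hM]
    push_cast
    linarith [Nat.le_ceil (2 * (R:ℝ) / x)]
  have hM2 : (M:ℝ) ≤ 2 * (R:ℝ) / x + 3 := by
    rw [hM]
    push_cast
    linarith [Nat.ceil_lt_add_one (show 0 ≤ 2 * (R:ℝ) / x by positivity)]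
  have hMR : (R:ℝ) + 3/2 * (δ * W) ≤ δ * W * M := by
    have h1 : (R:ℝ) ≤ δ * W * (2 * (R:ℝ) / x) := by
      have h2 : x / 2 * (2 * (R:ℝ) / x) = R := by
        field_simp
      calc (R:ℝ) = x / 2 * (2 * (R:ℝ) / x) := h2.symm
        _ ≤ δ * W * (2 * (R:ℝ) / x) := mul_le_mul_of_nonneg_right hw1 (by positivity)
    have h3 := mul_le_mul_of_nonneg_left hM1 hw0.le
    have e : δ * W * (2 * (R:ℝ) / x + 2) = δ * W * (2 * (R:ℝ) / x) + 2 * (δ * W) := by ring
    rw [e] at h3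
    linarith
  obtain ⟨S, hS⟩ : ∃ S : Finset Vtx, S = Finset.Icc (-(M:ℤ)) M ×ˢ Finset.Icc (-(M:ℤ)) M := ⟨_, rfl⟩
  have hScard : (S.card : ℝ) ≤ ((4 * (R:ℝ) + 7) / x) ^ 2 := by
    have e1 : ((M:ℤ) + 1 - -(M:ℤ)).toNat = 2 * M + 1 := by omega
    rw [hS, card_product, Int.card_Icc, e1, sq]
    push_cast
    have h1 : 2 * (M:ℝ) + 1 ≤ (4 * (R:ℝ) + 7) / x := by
      have h2 : 7 ≤ 7 / x := by
        rw [le_div_iff₀ hx0]
        linarith
      have e : (4 * (R:ℝ) + 7) / x = 2 * (2 * (R:ℝ) / x) + 7 / x := by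
        field_simp
        ring
      rw [e]
      linarith
    exact mul_le_mul h1 h1 (by positivity) (by positivity)
  obtain ⟨A, hA1, hA2⟩ := hgood a ha5 S (4 * j) n
  rw [← hW] at hA1
  refine ⟨A, fun ω hω => ?_, ?_⟩
  · obtain ⟨hR, hnot⟩ := hω
    apply hA1
    intro hGS
    apply hnot
    have hcv : curve n ω = H984N.pl n (fun k => (δ:ℂ) * gam ω k) := by
      unfold curve
      rw [hδe]
    have hG : GoodP W K (4 * j) n ω := by
      intro k l hkl hl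
      refine hGS k l hkl hl ?_
      rw [hS]
      rw [hcv] at hR
      exact start_block hnp' hδ (by omega) hMR hR (hkl.trans hl)
    have hj0' : (0:ℝ) ≤ j := Nat.cast_nonneg j
    rw [hcv]
    unfold GE
    rw [← hx]
    constructor
    · intro s t hst
      have h2 := area_timeH hnp' hδ (W := W) (by omega) hK hG (s := s) (t := t) (r := 2 * x)
        (by linarith)
      rw [hδn] at h2
      refine h2.trans ((real_upper hK hx0 hw1 hw2 measureReal_nonneg (Nat.cast_nonneg _) hδ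
        hdx).trans ?_)
      push_cast
      refine add_le_add (mul_le_mul_of_nonneg_right (mul_le_mul_of_nonneg_right ?_
        (by positivity)) measureReal_nonneg) (mul_le_mul_of_nonneg_right ?_ (by positivity))
      · linarith
      · have e : (8 * K + 9) * ((j:ℝ) + 1) =
            K * (4 * j) + 1 + (4 * (K * j) + 8 * K + 9 * j + 8) := by
          ring
        rw [e]
        have : 0 ≤ K * j := mul_nonneg hK.le hj0'
        linarith
    · intro s t hst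
      have hst' : (s:ℝ) ≤ t := hst
      have h2 := time_areaH hnp' hδ hW2 hK hG hst (r := 8 * x) (by positivity)
      rw [hδn] at h2
      refine h2.trans ((real_lowerB hK hx0 hw1 hw2
        (mul_nonneg (by linarith) (by positivity))
        (Nat.cast_nonneg _) hδ hdx).trans ?_)
      have h10 : 0 ≤ x ^ (1/4 : ℝ) * (((t:ℝ) - s) * 1) := by
        have : 0 ≤ (t:ℝ) - s := by linarith
        positivity
      push_cast
      refine add_le_add ?_ ?_
      · have e12 : 484 * (8 * K + 9) * x ^ (1/4 : ℝ) * (((t:ℝ) - s) * 1) =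
            1936 * K * x ^ (1/4 : ℝ) * (((t:ℝ) - s) * 1) +
            484 * (4 * K + 9) * (x ^ (1/4 : ℝ) * (((t:ℝ) - s) * 1)) := by ring
        rw [e12]
        have : 0 ≤ 484 * (4 * K + 9) * (x ^ (1/4 : ℝ) * (((t:ℝ) - s) * 1)) :=
          mul_nonneg (by positivity) h10
        linarith
      · refine mul_le_mul_of_nonneg_right ?_ (by positivity)
        have e : 484 * (8 * K + 9) * ((j:ℝ) + 1) =
            484 * (8 * K + 4 * j + 9) + 484 * (8 * (K * j) + 5 * j) := by ring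
        rw [e]
        have : 0 ≤ K * j := mul_nonneg hK.le hj0'
        linarith
  · refine hA2.trans ?_
    have e4 : ((1:ℝ)/2) ^ (4 * j) = x ^ 4 := by
      rw [hx, ← pow_mul, mul_comm]
    have e5 : ((1:ℝ)/4) ^ j = x ^ 2 := by
      rw [hx, ← pow_mul, mul_comm, pow_mul]
      norm_num
    rw [e4, e5]
    calc (S.card : ℝ) * (20 * x ^ 4) ≤ ((4 * (R:ℝ) + 7) / x) ^ 2 * (20 * x ^ 4) :=
          mul_le_mul_of_nonneg_right hScard (by positivity)
      _ = 20 * (4 * (R:ℝ) + 7) ^ 2 * x ^ 2 := by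
          field_simp

theorem GE_closure {K : ℝ} (hK : 0 < K) {j : ℕ} {p : H984N.X} (hp : p ∈ closure (GE K j 2 8)) :
    p ∈ GE K j 3 7 := by
  have hx : (0:ℝ) < (1/2) ^ j := by positivity
  unfold GE at hp
  constructor
  · exact EU_closure (by positivity) (by linarith) (closure_mono Set.inter_subset_left hp)
  · exact EL_closure (by positivity) (by linarith) (closure_mono Set.inter_subset_right hp)

/-- The comparisons hold almost surely at all small scales. -/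
theorem lim_aeH {K : ℝ} (hK : 0 < K)
    (h : ∀ R : ℕ, ∃ B : ℝ, 0 < B ∧ ∀ j : ℕ, ∃ n1 : ℕ, ∀ n : ℕ, n1 ≤ n →
      ∃ A : Set Conf, {ω | ‖curve n ω‖ ≤ R ∧ (curve n ω, (1:ℝ)) ∉ GE K j 2 8} ⊆ A ∧
        perc.real A ≤ B * (1/4) ^ j)
    {ν : ℕ → ℕ} (hν : Tendsto ν atTop atTop)
    {μ : ProbabilityMeasure C(unitInterval, ℂ)} (hμ : Tendsto (fun i => lawH (ν i)) atTop (𝓝 μ)) :
    ∀ᵐ f : C(unitInterval, ℂ) ∂(μ : Measure C(unitInterval, ℂ)), ∀ᶠ j : ℕ in atTop,
      (f, (1:ℝ)) ∈ GE K j 3 7 := by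
  have key : ∀ R : ℕ, ∀ᵐ f : C(unitInterval, ℂ) ∂(μ : Measure C(unitInterval, ℂ)),
      ∀ᶠ j : ℕ in atTop, f ∈ closure ({f | (f, (1:ℝ)) ∈ GE K j 2 8} ∪ {f | (R:ℝ) < ‖f‖}) := by
    intro R
    obtain ⟨B, hB, hB2⟩ := h R
    set G : ℕ → Set C(unitInterval, ℂ) := fun j =>
      {f | (f, (1:ℝ)) ∈ GE K j 2 8} ∪ {f | (R:ℝ) < ‖f‖} with hG
    have h1 : ∀ j, (μ : Measure C(unitInterval, ℂ)) (closure (G j))ᶜ ≤
        ENNReal.ofReal (B * (1/4) ^ j) := by
      intro j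
      obtain ⟨n1, hn1⟩ := hB2 j
      refine limit_closedC hμ isClosed_closure ?_
      filter_upwards [hν.eventually (eventually_ge_atTop n1)] with i hi
      obtain ⟨A, hA1, hA2⟩ := hn1 (ν i) hi
      rw [lawH_apply _ isClosed_closure.measurableSet.compl]
      apply ENNReal.ofReal_le_ofReal
      refine le_trans (measureReal_mono ?_) hA2
      intro ω hω
      apply hA1
      have h2 : curve (ν i) ω ∉ G j := fun h3 => hω (subset_closure h3)
      rw [hG] at h2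
      simp only [Set.mem_union, Set.mem_ofPred_eq, not_or, not_lt] at h2
      exact ⟨h2.2, h2.1⟩
    have hsum : ∑' j, (μ : Measure C(unitInterval, ℂ)) (closure (G j))ᶜ ≠ ⊤ := by
      refine (lt_of_le_of_lt (ENNReal.tsum_le_tsum h1) ?_).ne
      rw [← ENNReal.ofReal_tsum_of_nonneg (fun j => by positivity)
        ((summable_geometric_of_lt_one (by norm_num) (by norm_num)).mul_left B)]
      exact ENNReal.ofReal_lt_top
    filter_upwards [ae_eventually_notMem hsum] with f hf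
    filter_upwards [hf] with j hj
    by_contra hcon
    exact hj hcon
  filter_upwards [ae_all_iff.2 key] with f hf
  obtain ⟨R, hR⟩ := exists_nat_gt ‖f‖
  filter_upwards [hf R] with j hj
  apply GE_closure hK
  rw [closure_union] at hj
  rcases hj with hj | hj
  · exact map_mem_closure (f := fun g : C(unitInterval, ℂ) => (g, (1:ℝ)))
      (by fun_prop) hj (fun g hg => hg)
  · exfalso
    have h2 : closure {f : C(unitInterval, ℂ) | (R:ℝ) < ‖f‖} ⊆ {f | (R:ℝ) ≤ ‖f‖} :=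
      closure_minimal (fun g hg => by
        have h4 : (R:ℝ) < ‖g‖ := hg
        exact (show (R:ℝ) ≤ ‖g‖ from h4.le)) (isClosed_le continuous_const continuous_norm)
    have h3 : (R:ℝ) ≤ ‖f‖ := h2 hj
    linarith

end Y994.HS
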