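import Pool.Agent.Y994.HS.HFinal

/-!
Half-plane: almost surely the area of the `r`-neighbourhood of every piece of the path of duration
at least `C r^(7/4) log n` is comparable with `r^(1/4)` times the duration.
-/

set_option autoImplicit false

namespace Y994.HS

open H974 Finset H342P H984P H984H TH992.L Y994.MC MeasureTheory Filter Topology

theorem GoodP.mono {W : ℕ} {K K' : ℝ} (h : K ≤ K') {N0 n : ℕ} {ω : Conf} (hG : GoodP W K N0 n ω) :
    GoodP W K' N0 n ω := by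
  intro k l hkl hl
  obtain ⟨h1, h2⟩ := hG k l hkl hl
  have a1 : (0:ℝ) ≤ (W : ℝ) ^ (7/4 : ℝ) := Real.rpow_nonneg (Nat.cast_nonneg _) _
  constructor
  · refine h1.trans (mul_le_mul_of_nonneg_left (mul_le_mul_of_nonneg_right h ?_) a1)
    positivity
  · refine h2.trans ?_
    have : K * (((l - k + 1 : ℕ) : ℝ) / (W : ℝ) ^ (7/4 : ℝ)) ≤
        K' * (((l - k + 1 : ℕ) : ℝ) / (W : ℝ) ^ (7/4 : ℝ)) :=
      mul_le_mul_of_nonneg_right h (by positivity)
    linarith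

/-- the additional number of blocks -/
def NN (n : ℕ) : ℕ := 6 * Nat.clog 2 (n + 1)

theorem NN_pow (n : ℕ) : ((1:ℝ)/2) ^ NN n ≤ 1 / ((n:ℝ) + 1) ^ 6 := by
  have h1 : n + 1 ≤ 2 ^ Nat.clog 2 (n + 1) := Nat.le_pow_clog (by norm_num) _
  have h2 : ((n:ℝ) + 1) ≤ 2 ^ Nat.clog 2 (n + 1) := by exact_mod_cast h1
  have h3 : (0:ℝ) < (n:ℝ) + 1 := by positivity
  have h4 : ((n:ℝ) + 1) ^ 6 ≤ 2 ^ NN n := by
    unfold NN
    rw [mul_comm, pow_mul]
    exact pow_le_pow_left₀ h3.le h2 6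
  rw [one_div, inv_pow, ← one_div]
  exact one_div_le_one_div_of_le (by positivity) h4

theorem NN_le {n : ℕ} (hn : 3 ≤ n) : (NN n : ℝ) + 9 ≤ 27 * Real.log n := by
  have hn3 : (3:ℝ) ≤ n := by exact_mod_cast hn
  have h1 : 1 ≤ Real.log n := by
    rw [Real.le_log_iff_exp_le (by linarith)]
    linarith [Real.exp_one_lt_d9]
  have h2 : Nat.clog 2 (n + 1) ≤ Nat.log 2 n + 1 := by
    rw [Nat.clog_le_iff_le_pow (by norm_num)]
    exact Nat.lt_pow_succ_log_self (by norm_num) n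
  have h3 : (Nat.log 2 n : ℝ) * Real.log 2 ≤ Real.log n := by
    rw [← Real.log_pow]
    refine Real.log_le_log (by positivity) ?_
    have := Nat.pow_log_le_self 2 (show n ≠ 0 by omega)
    exact_mod_cast this
  have h4 := Real.log_two_gt_d9
  have h5 : (0:ℝ) ≤ (Nat.log 2 n : ℝ) := Nat.cast_nonneg _
  have h6 : (Nat.log 2 n : ℝ) ≤ 2 * Real.log n := by nlinarith
  have h7 : (NN n : ℝ) ≤ 6 * ((Nat.log 2 n : ℝ) + 1) := by
    unfold NN
    have : 6 * Nat.clog 2 (n + 1) ≤ 6 * (Nat.log 2 n + 1) := Nat.mul_le_mul_left _ h2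
    exact_mod_cast this
  linarith

/-- almost surely all scales are good -/
theorem ae_good {c C : ℝ} (hc : 0 < c) (hC : 0 < C) (hL : LowA c (1/4)) (hU : TwoUp C (1/4)) :
    ∃ (Γ : ℕ) (K : ℝ), 1 ≤ Γ ∧ 1 ≤ K ∧ ∀ᵐ ω ∂perc, ∀ᶠ n : ℕ in atTop, ∀ i ≤ n,
      GoodP (Γ * (5 * 2 ^ i)) K (NN n) n ω := by
  obtain ⟨Γ, K, hΓ, hK, h⟩ := goodP_pr hc hC hL hU
  refine ⟨Γ, max K 1, hΓ, le_max_right _ _, ?_⟩
  have ha : ∀ i : ℕ, 5 ≤ 5 * 2 ^ i := fun i => by
    have : 0 < 2 ^ i := by positivity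
    omega
  choose A hA1 hA2 using fun i n : ℕ => h (5 * 2 ^ i) (ha i) (NN n) n
  have hB : ∀ n : ℕ, perc (⋃ i ∈ Finset.range (n + 1), A i n) ≤
      ENNReal.ofReal (40 / ((n:ℝ) + 1) ^ 2) := by
    intro n
    refine (measure_biUnion_finset_le _ _).trans ?_
    have h1 : ∀ i ∈ Finset.range (n + 1), perc (A i n) ≤
        ENNReal.ofReal (40 * ((n : ℝ) + 1) ^ 2 * (1/2) ^ NN n) := by
      intro i _
      rw [← ofReal_measureReal (measure_ne_top _ _)]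
      exact ENNReal.ofReal_le_ofReal (hA2 i n)
    refine (Finset.sum_le_card_nsmul _ _ _ h1).trans ?_
    rw [card_range, nsmul_eq_mul, ← ENNReal.ofReal_natCast, ← ENNReal.ofReal_mul (by positivity)]
    refine ENNReal.ofReal_le_ofReal ?_
    have h3 : (0:ℝ) < (n:ℝ) + 1 := by positivity
    have h4 : (1:ℝ) ≤ (n:ℝ) + 1 := by linarith [(Nat.cast_nonneg n : (0:ℝ) ≤ n)]
    have h5 := NN_pow n
    push_cast
    calc ((n:ℝ) + 1) * (40 * ((n : ℝ) + 1) ^ 2 * (1/2) ^ NN n)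
        ≤ ((n:ℝ) + 1) * (40 * ((n : ℝ) + 1) ^ 2 * (1 / ((n:ℝ) + 1) ^ 6)) := by gcongr
      _ = 40 / ((n:ℝ) + 1) ^ 3 := by
          field_simp
      _ ≤ 40 / ((n:ℝ) + 1) ^ 2 := by
          refine div_le_div_of_nonneg_left (by norm_num) (by positivity) ?_
          exact pow_le_pow_right₀ h4 (by norm_num)
  have hsum : ∑' n : ℕ, perc (⋃ i ∈ Finset.range (n + 1), A i n) ≠ ⊤ := by
    refine ne_top_of_le_ne_top ?_ (ENNReal.tsum_le_tsum hB)
    have hs : Summable (fun n : ℕ => 40 / ((n:ℝ) + 1) ^ 2) := by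
      have := (summable_nat_add_iff 1).mpr (Real.summable_one_div_nat_pow.mpr (by norm_num : 1 < 2))
      have h2 := this.mul_left 40
      refine h2.congr fun n => ?_
      push_cast
      ring
    exact hs.tsum_ofReal_ne_top
  filter_upwards [ae_eventually_notMem hsum] with ω hω
  filter_upwards [hω] with n hn i hi
  refine GoodP.mono (le_max_left _ _) ?_
  by_contra hcon
  apply hn
  rw [Set.mem_iUnion₂]
  exact ⟨i, mem_range.mpr (by omega), hA1 i n hcon⟩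

/-- The sausage law. -/
theorem sausage {c C : ℝ} (hc : 0 < c) (hC : 0 < C) (hL : LowA c (1/4)) (hU : TwoUp C (1/4)) :
    ∃ c0 C0 : ℝ, 0 < c0 ∧ 0 < C0 ∧ ∀ᵐ ω ∂perc, ∀ᶠ n : ℕ in atTop, ∀ k l : ℕ, k ≤ l → l ≤ n →
      ∀ r : ℝ, 1 ≤ r → C0 * r ^ (7/4 : ℝ) * Real.log n ≤ (l:ℝ) - k →
        c0 * r ^ (1/4 : ℝ) * ((l:ℝ) - k) ≤ sar ω r k l ∧
        sar ω r k l ≤ C0 * r ^ (1/4 : ℝ) * ((l:ℝ) - k) := by
  obtain ⟨Γ, K, hΓ, hK, h⟩ := ae_good hc hC hL hU
  have hΓr : (1:ℝ) ≤ Γ := by exact_mod_cast hΓ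
  have hΓ0 : (0:ℝ) < Γ := by linarith
  refine ⟨min (1 / (8 * K)) (3 / (160 * Γ)), max (588 * K) (800 * (Γ:ℝ) ^ 2), ?_, ?_, ?_⟩
  · exact lt_min (by positivity) (by positivity)
  · exact lt_max_of_lt_left (by positivity)
  filter_upwards [h] with ω hω
  filter_upwards [hω, eventually_ge_atTop 3] with n hn hn3 k l hkl hl r hr hT
  set C0 := max (588 * K) (800 * (Γ:ℝ) ^ 2) with hC0
  have hC0a : 588 * K ≤ C0 := le_max_left _ _
  have hC0b : 800 * (Γ:ℝ) ^ 2 ≤ C0 := le_max_right _ _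
  have hlog := NN_le hn3
  have hn3' : (3:ℝ) ≤ n := by exact_mod_cast hn3
  have hlog1 : 1 ≤ Real.log n := by
    rw [Real.le_log_iff_exp_le (by linarith)]
    linarith [Real.exp_one_lt_d9]
  have hr0 : 0 < r := by linarith
  have hr7 : r ≤ r ^ (7/4 : ℝ) := by
    calc r = r ^ (1:ℝ) := (Real.rpow_one r).symm
      _ ≤ r ^ (7/4 : ℝ) := Real.rpow_le_rpow_of_exponent_le hr (by norm_num)
  have hr4 : 1 ≤ r ^ (1/4 : ℝ) := Real.one_le_rpow hr (by norm_num)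
  have hr4' : r ^ (1/4 : ℝ) ≤ r := by
    calc r ^ (1/4 : ℝ) ≤ r ^ (1:ℝ) := Real.rpow_le_rpow_of_exponent_le hr (by norm_num)
      _ = r := Real.rpow_one r
  have hT1 : r ≤ (l:ℝ) - k := by
    refine le_trans ?_ hT
    have h588 : 1 ≤ C0 := by linarith
    calc r ≤ r ^ (7/4 : ℝ) := hr7
      _ = 1 * r ^ (7/4 : ℝ) * 1 := by ring
      _ ≤ C0 * r ^ (7/4 : ℝ) * Real.log n := by gcongr
  have hkl1 : k + 1 ≤ l := by
    have : (k:ℝ) + 1 ≤ l := by linarith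
    exact_mod_cast this
  have hln : (l:ℝ) ≤ n := by exact_mod_cast hl
  have hk0 : (0:ℝ) ≤ k := Nat.cast_nonneg k
  have ht0 : 0 < (l:ℝ) - k := by linarith
  rcases lt_or_ge r (10 * Γ) with hsm | hbig
  · constructor
    · have h1 := sar_small_low ω hr (show k ≤ l by omega)
      have h2 : min (1 / (8 * K)) (3 / (160 * Γ)) * r ^ (1/4 : ℝ) ≤ 3/16 := by
        calc min (1 / (8 * K)) (3 / (160 * Γ)) * r ^ (1/4 : ℝ)
            ≤ (3 / (160 * Γ)) * (10 * Γ) :=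
              mul_le_mul (min_le_right _ _) (hr4'.trans hsm.le) (by positivity) (by positivity)
          _ = 3/16 := by field_simp; norm_num
      have h3 := mul_le_mul_of_nonneg_right h2 ht0.le
      linarith
    · have h1 := sar_small_up ω hr0.le (show k ≤ l by omega)
      have h2 : 4 * r ^ 2 * ((l:ℝ) - k + 1) ≤ 8 * r ^ 2 * ((l:ℝ) - k) := by
        have : (l:ℝ) - k + 1 ≤ 2 * ((l:ℝ) - k) := by linarith
        calc 4 * r ^ 2 * ((l:ℝ) - k + 1) ≤ 4 * r ^ 2 * (2 * ((l:ℝ) - k)) := by gcongr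
          _ = 8 * r ^ 2 * ((l:ℝ) - k) := by ring
      have h3 : 8 * r ^ 2 ≤ C0 * r ^ (1/4 : ℝ) := by
        calc 8 * r ^ 2 ≤ 8 * (10 * Γ) ^ 2 := by gcongr
          _ = 800 * (Γ:ℝ) ^ 2 := by ring
          _ ≤ C0 * 1 := by linarith
          _ ≤ C0 * r ^ (1/4 : ℝ) := by gcongr
      have h4 := mul_le_mul_of_nonneg_right h3 ht0.le
      linarith
  · obtain ⟨i, i1, i2⟩ := exists_nat_pow_near (x := r / (10 * Γ)) (y := 2)
      (by rw [le_div_iff₀ (by positivity)]; linarith) (by norm_num)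
    rw [le_div_iff₀ (by positivity)] at i1
    rw [div_lt_iff₀ (by positivity)] at i2
    have hin : i ≤ n := by
      have h1 : i < 2 ^ i := Nat.lt_two_pow_self
      have h2 : ((2:ℝ) ^ i) ≤ n := by
        have h3 : (2:ℝ) ^ i ≤ 2 ^ i * (10 * Γ) := by
          have : (0:ℝ) < 2 ^ i := by positivity
          nlinarith
        linarith
      have h4 : 2 ^ i ≤ n := by exact_mod_cast h2
      omega
    have hG := hn i hin
    have hWc : ((Γ * (5 * 2 ^ i) : ℕ) : ℝ) = Γ * (5 * 2 ^ i) := by push_cast; ring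
    have hWpos : 1 ≤ Γ * (5 * 2 ^ i) := by
      have : 0 < Γ * (5 * 2 ^ i) := by positivity
      omega
    have h1 : 2 * ((Γ * (5 * 2 ^ i) : ℕ) : ℝ) ≤ r := by
      rw [hWc]
      linarith
    have h2 : r ≤ 4 * ((Γ * (5 * 2 ^ i) : ℕ) : ℝ) := by
      rw [hWc]
      have e : (2:ℝ) ^ (i + 1) * (10 * Γ) = 4 * (Γ * (5 * 2 ^ i)) := by ring
      linarith
    have hT2 : 2 * K * ((NN n : ℝ) + 9) * r ^ (7/4 : ℝ) ≤ (l:ℝ) - k := by
      refine le_trans ?_ hT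
      calc 2 * K * ((NN n : ℝ) + 9) * r ^ (7/4 : ℝ) ≤ 2 * K * (27 * Real.log n) * r ^ (7/4 : ℝ) := by
            gcongr
        _ = 54 * K * r ^ (7/4 : ℝ) * Real.log n := by ring
        _ ≤ C0 * r ^ (7/4 : ℝ) * Real.log n := by
            gcongr
            linarith
    obtain ⟨p1, p2⟩ := piece hWpos hK hG h1 h2 hkl1 hl hT2
    constructor
    · refine le_trans ?_ p1
      gcongr
      exact min_le_left _ _
    · refine p2.trans ?_
      gcongr

end Y994.HS
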