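import Pool.Agent.Y994.HS.HFinal
import Pool.Agent.Y994.MD.MeshB
import Pool.Agent.H984R4.HN.FinalH

/-!
Half-plane: the time and the area of the neighbourhoods of the pieces of the rescaled curve.
-/

set_option autoImplicit false

namespace Y994.HS

open H974 Finset H342P H984P H984H TH992.L Y994.MC MeasureTheory Filter Topology

theorem scal_ctr {δ : ℝ} (hδ : 0 < δ) {W : ℕ} (hW : 1 ≤ W) (σ : St) :
    dist ((δ:ℂ) * place σ) (Y994.MC.ctr 0 (δ * W) (Y994.MC.bk W σ.1)) ≤ 3/2 * (δ * W) := by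
  have e : Y994.MC.ctr 0 (δ * W) (Y994.MC.bk W σ.1) =
      (δ:ℂ) * Y994.MC.ctr 0 W (Y994.MC.bk W σ.1) := by
    unfold Y994.MC.ctr
    apply Complex.ext
    · rw [Complex.re_ofReal_mul]
      simp only
      ring
    · rw [Complex.im_ofReal_mul]
      simp only
      ring
  rw [e, dist_eq_norm, ← mul_sub, norm_mul, Complex.norm_real, Real.norm_eq_abs, abs_of_pos hδ,
    ← dist_eq_norm]
  have := mul_le_mul_of_nonneg_left (place_ctr hW σ) hδ.le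
  linarith

theorem area_timeH {ω : Conf} {N : ℕ} (hN : 0 < N) {δ : ℝ} (hδ : 0 < δ)
    {W : ℕ} (hW : 1 ≤ W) {K : ℝ} (hK : 0 < K) {N0 : ℕ} (hG : GoodP W K N0 N ω)
    {s t : unitInterval} {r : ℝ} (hr : 2 * (δ * W) ≤ r) :
    ((t:ℝ) - s) * (δ ^ (7/4 : ℝ) * N) ≤
      (δ * W) ^ (7/4 : ℝ) * (K * (volume.real (Metric.thickening r
        (H984N.pl N (fun k => (δ:ℂ) * gam ω k) '' Set.Icc s t)) / (3 * (δ * W / 2) ^ 2) +
          N0)) + δ ^ (7/4 : ℝ) := by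
  set p : ℕ → ℂ := fun k => (δ:ℂ) * gam ω k with hp
  have hN' : (0:ℝ) < N := by exact_mod_cast hN
  have hWr : (0:ℝ) < W := by exact_mod_cast hW
  have hw : 0 < δ * W := by positivity
  have hδp : 0 < δ ^ (7/4 : ℝ) := Real.rpow_pos_of_pos hδ _
  have hwp : 0 < (δ * W) ^ (7/4 : ℝ) := Real.rpow_pos_of_pos hw _
  have hv : 0 ≤ volume.real (Metric.thickening r (H984N.pl N p '' Set.Icc s t)) :=
    measureReal_nonneg
  have hs0 : 0 ≤ (s:ℝ) * N := mul_nonneg s.2.1 hN'.le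
  have ht0 : 0 ≤ (t:ℝ) * N := mul_nonneg t.2.1 hN'.le
  have ht1 : (t:ℝ) * N ≤ N := by nlinarith [t.2.2]
  have c1 := Nat.le_ceil ((s:ℝ) * N)
  have c2 := Nat.ceil_lt_add_one hs0
  have f1 := Nat.floor_le ht0
  have f2 := Nat.lt_floor_add_one ((t:ℝ) * N)
  rcases Nat.lt_or_ge ⌊(t:ℝ) * N⌋₊ ⌈(s:ℝ) * N⌉₊ with h | h
  · have h1 : ((⌊(t:ℝ) * N⌋₊ : ℕ) : ℝ) + 1 ≤ (⌈(s:ℝ) * N⌉₊ : ℝ) := by exact_mod_cast h
    have h2 : ((t:ℝ) - s) * N ≤ 1 := by nlinarith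
    have h3 : ((t:ℝ) - s) * (δ ^ (7/4 : ℝ) * N) ≤ δ ^ (7/4 : ℝ) := by nlinarith
    have h4 : 0 ≤ (δ * W) ^ (7/4 : ℝ) * (K * (volume.real (Metric.thickening r
        (H984N.pl N p '' Set.Icc s t)) / (3 * (δ * W / 2) ^ 2) + N0)) := by positivity
    linarith
  · set k := ⌈(s:ℝ) * N⌉₊ with hk
    set l := ⌊(t:ℝ) * N⌋₊ with hl
    have hlN : l ≤ N := by
      have : (l:ℝ) ≤ N := f1.trans ht1
      exact_mod_cast this
    obtain ⟨g1, -⟩ := hG k l h hlN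
    have hkl : ((l - k + 1 : ℕ) : ℝ) = (l:ℝ) - k + 1 := by
      rw [Nat.cast_add, Nat.cast_sub h, Nat.cast_one]
    rw [hkl] at g1
    have hA := vol_low (δ := 0) (Γ := H984N.pl N p '' Set.Icc s t) hw hr (vp ω W k l)
      (im_bdd _ s t) (fun q hq => by
        unfold vp at hq
        rw [mem_vset] at hq
        obtain ⟨i, i1, i2, i3⟩ := hq
        have j1 : (k:ℝ) ≤ i := by exact_mod_cast i1
        have j2 : (i:ℝ) ≤ l := by exact_mod_cast i2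
        refine ⟨p i, node_in hN (c1.trans j1) (j2.trans f1), ?_⟩
        rw [← i3]
        exact scal_ctr hδ hW _)
    have hA2 : ((vp ω W k l).card : ℝ) ≤ volume.real (Metric.thickening r
        (H984N.pl N p '' Set.Icc s t)) / (3 * (δ * W / 2) ^ 2) := by
      rw [le_div_iff₀ (by positivity)]
      exact hA
    have h5 : ((t:ℝ) - s) * N ≤ ((l:ℝ) - k + 1) + 1 := by nlinarith
    calc ((t:ℝ) - s) * (δ ^ (7/4 : ℝ) * N) = δ ^ (7/4 : ℝ) * (((t:ℝ) - s) * N) := by ring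
      _ ≤ δ ^ (7/4 : ℝ) * (((l:ℝ) - k + 1) + 1) := mul_le_mul_of_nonneg_left h5 hδp.le
      _ = δ ^ (7/4 : ℝ) * ((l:ℝ) - k + 1) + δ ^ (7/4 : ℝ) := by ring
      _ ≤ δ ^ (7/4 : ℝ) * ((W : ℝ) ^ (7/4 : ℝ) * (K * (((vp ω W k l).card : ℝ) + N0))) +
          δ ^ (7/4 : ℝ) := by
          have := mul_le_mul_of_nonneg_left g1 hδp.le
          linarith
      _ = (δ * W) ^ (7/4 : ℝ) * (K * (((vp ω W k l).card : ℝ) + N0)) + δ ^ (7/4 : ℝ) := by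
          rw [rpow_mul_74 hδ]; ring
      _ ≤ _ := by
          have h6 : K * (((vp ω W k l).card : ℝ) + N0) ≤ K * (volume.real
              (Metric.thickening r (H984N.pl N p '' Set.Icc s t)) / (3 * (δ * W / 2) ^ 2) + N0) :=
            mul_le_mul_of_nonneg_left (by linarith) hK.le
          have := mul_le_mul_of_nonneg_left h6 hwp.le
          linarith

theorem time_areaH {ω : Conf} {N : ℕ} (hN : 0 < N) {δ : ℝ} (hδ : 0 < δ)
    {W : ℕ} (hW : 2 ≤ W) {K : ℝ} (hK : 0 < K) {N0 : ℕ} (hG : GoodP W K N0 N ω)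
    {s t : unitInterval} (hst : s ≤ t) {r : ℝ} (hr : 0 ≤ r) :
    volume.real (Metric.thickening r
      (H984N.pl N (fun k => (δ:ℂ) * gam ω k) '' Set.Icc s t)) ≤
      (K * ((((t:ℝ) - s) * (δ ^ (7/4 : ℝ) * N) + 2 * δ ^ (7/4 : ℝ)) /
        (δ * W) ^ (7/4 : ℝ)) + (N0 + 9)) * (4 * (r + 3 * (δ * W)) ^ 2) := by
  set p : ℕ → ℂ := fun k => (δ:ℂ) * gam ω k with hp
  have hN' : (0:ℝ) < N := by exact_mod_cast hN
  have hW2 : (2:ℝ) ≤ W := by exact_mod_cast hW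
  have hWr : (0:ℝ) < W := by linarith
  have hw : 0 < δ * W := by positivity
  have hδp : 0 < δ ^ (7/4 : ℝ) := Real.rpow_pos_of_pos hδ _
  have hwp : 0 < (δ * W) ^ (7/4 : ℝ) := Real.rpow_pos_of_pos hw _
  have hst' : (s:ℝ) ≤ t := hst
  have hs0 : 0 ≤ (s:ℝ) * N := mul_nonneg s.2.1 hN'.le
  have ht0 : 0 ≤ (t:ℝ) * N := mul_nonneg t.2.1 hN'.le
  have ht1 : (t:ℝ) * N ≤ N := by nlinarith [t.2.2]
  have c1 := Nat.floor_le hs0
  have c2 := Nat.lt_floor_add_one ((s:ℝ) * N)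
  have f1 := Nat.floor_le ht0
  have f2 := Nat.lt_floor_add_one ((t:ℝ) * N)
  have h : ⌊(s:ℝ) * N⌋₊ ≤ ⌊(t:ℝ) * N⌋₊ :=
    Nat.floor_mono (mul_le_mul_of_nonneg_right hst' hN'.le)
  set k := ⌊(s:ℝ) * N⌋₊ with hk
  set l := ⌊(t:ℝ) * N⌋₊ with hl
  have hlN : l ≤ N := by
    have : (l:ℝ) ≤ N := f1.trans ht1
    exact_mod_cast this
  obtain ⟨-, g2⟩ := hG k l h hlN
  have hkl : ((l - k + 1 : ℕ) : ℝ) = (l:ℝ) - k + 1 := by
    rw [Nat.cast_add, Nat.cast_sub h, Nat.cast_one]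
  rw [hkl] at g2
  have hA := vol_up (δ := 0) (Γ := H984N.pl N p '' Set.Icc s t) hw hr (vp ω W k l) (fun z hz => by
    obtain ⟨u, ⟨u1, u2⟩, rfl⟩ := hz
    obtain ⟨i, i1, i2, i3⟩ := near_node hN (p := p) u1 u2 (η := δ / 2) (by positivity)
      (fun j _ => by
        rw [hp]
        simp only
        rw [dist_eq_norm, ← mul_sub, norm_mul, Complex.norm_real, Real.norm_eq_abs,
          abs_of_pos hδ, ← dist_eq_norm]
        have := mul_le_mul_of_nonneg_left (gam_step ω j) hδ.le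
        linarith)
    refine ⟨Y994.MC.bk W (path ω i).1, ?_, ?_⟩
    · unfold vp
      rw [mem_vset]
      exact ⟨i, i1, i2, rfl⟩
    · have h1 := scal_ctr hδ (show 1 ≤ W by omega) (path ω i)
      have h2 := dist_triangle (H984N.pl N p u) (p i)
        (Y994.MC.ctr 0 (δ * W) (Y994.MC.bk W (path ω i).1))
      have h3 : δ * 2 ≤ δ * W := mul_le_mul_of_nonneg_left hW2 hδ.le
      have h4 : dist (p i) (Y994.MC.ctr 0 (δ * W) (Y994.MC.bk W (path ω i).1)) ≤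
        3/2 * (δ * W) := h1
      linarith)
  refine hA.trans (mul_le_mul_of_nonneg_right ?_ (by positivity))
  refine g2.trans (add_le_add_left ?_ _)
  refine mul_le_mul_of_nonneg_left ?_ hK.le
  rw [rpow_mul_74 hδ, div_le_div_iff₀ (Real.rpow_pos_of_pos hWr _)
    (mul_pos hδp (Real.rpow_pos_of_pos hWr _))]
  have h5 : ((l:ℝ) - k + 1) ≤ ((t:ℝ) - s) * N + 2 := by nlinarith
  have hWp : 0 < (W:ℝ) ^ (7/4 : ℝ) := Real.rpow_pos_of_pos hWr _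
  calc ((l:ℝ) - k + 1) * (δ ^ (7/4 : ℝ) * (W:ℝ) ^ (7/4 : ℝ)) ≤
      (((t:ℝ) - s) * N + 2) * (δ ^ (7/4 : ℝ) * (W:ℝ) ^ (7/4 : ℝ)) :=
        mul_le_mul_of_nonneg_right h5 (by positivity)
    _ = (((t:ℝ) - s) * (δ ^ (7/4 : ℝ) * N) + 2 * δ ^ (7/4 : ℝ)) * (W:ℝ) ^ (7/4 : ℝ) := by ring

/-- A piece of the path inside a disc starts in a block of a finite set. -/
theorem start_block {ω : Conf} {N : ℕ} (hN : 0 < N) {δ : ℝ} (hδ : 0 < δ) {W : ℕ} (hW : 1 ≤ W)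
    {M : ℕ} {R : ℝ} (hM : R + 3/2 * (δ * W) ≤ δ * W * M)
    (hR : ‖H984N.pl N (fun k => (δ:ℂ) * gam ω k)‖ ≤ R) {k : ℕ} (hk : k ≤ N) :
    Y994.MC.bk W (path ω k).1 ∈ Finset.Icc (-(M:ℤ)) M ×ˢ Finset.Icc (-(M:ℤ)) M := by
  have hWr : (0:ℝ) < W := by exact_mod_cast hW
  have hw : 0 < δ * W := by positivity
  have hN' : (0:ℝ) < N := by exact_mod_cast hN
  have hk' : (k:ℝ) ≤ N := by exact_mod_cast hk
  have h1 : (δ:ℂ) * gam ω k ∈ H984N.pl N (fun k => (δ:ℂ) * gam ω k) '' Set.Icc 0 1 :=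
    node_in (p := fun k => (δ:ℂ) * gam ω k) hN (i := k) (by simp) (by simpa using hk')
  obtain ⟨u, -, hu⟩ := h1
  have h2 : ‖(δ:ℂ) * gam ω k‖ ≤ R := by
    rw [← hu]
    exact (ContinuousMap.norm_coe_le_norm _ u).trans hR
  have h3 := scal_ctr hδ hW (path ω k)
  have h4 : ‖Y994.MC.ctr 0 (δ * W) (Y994.MC.bk W (path ω k).1)‖ ≤ δ * W * M := by
    have h5 := norm_sub_le ((δ:ℂ) * gam ω k)
      ((δ:ℂ) * gam ω k - Y994.MC.ctr 0 (δ * W) (Y994.MC.bk W (path ω k).1))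
    rw [sub_sub_cancel, ← dist_eq_norm] at h5
    have h6 : dist ((δ:ℂ) * gam ω k) (Y994.MC.ctr 0 (δ * W) (Y994.MC.bk W (path ω k).1)) ≤
      3/2 * (δ * W) := h3
    linarith
  obtain ⟨q, hq⟩ : ∃ q, q = Y994.MC.bk W (path ω k).1 := ⟨_, rfl⟩
  rw [← hq] at h4 ⊢
  have key : ∀ x : ℤ, |δ * W * ((x:ℝ) + 1/2)| ≤ δ * W * M → -(M:ℤ) ≤ x ∧ x ≤ M := by
    intro x hx
    rw [abs_mul, abs_of_pos hw] at hx
    have h7 : |(x:ℝ) + 1/2| ≤ M := le_of_mul_le_mul_left hx hw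
    obtain ⟨a1, a2⟩ := abs_le.mp h7
    constructor
    · have : (-(M:ℝ)) < x + 1 := by linarith
      have : (-(M:ℤ)) < x + 1 := by exact_mod_cast this
      omega
    · have : (x:ℝ) < M + 1 := by linarith
      have : x < (M:ℤ) + 1 := by exact_mod_cast this
      omega
  rw [mem_product, mem_Icc, mem_Icc]
  refine ⟨key q.1 ?_, key q.2 ?_⟩
  · refine le_trans (Complex.abs_re_le_norm (Y994.MC.ctr 0 (δ * W) q)) h4
  · refine le_trans (le_of_eq ?_) ((Complex.abs_im_le_norm (Y994.MC.ctr 0 (δ * W) q)).trans h4)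
    unfold Y994.MC.ctr
    simp only
    rw [add_zero]

end Y994.HS
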