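import Pool.Agent.Y994.HS.HScale
import Pool.Agent.Y994.MC.Area

/-!
Half-plane: the area of the neighbourhoods of the pieces of the path.
-/

set_option autoImplicit false

namespace Y994.HS

open H974 Finset H342P H984P H984H TH992.L Y994.MC MeasureTheory Filter Topology

/-- area of the `r`-neighbourhood of the piece between the times `k` and `l` -/
noncomputable def sar (ω : Conf) (r : ℝ) (k l : ℕ) : ℝ :=
  volume.real (Metric.thickening r (gam ω '' Set.Icc k l))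

theorem place_eq (σ : St) : place σ = ⟨(σ.1.1 : ℝ) + H984N.ML.qx σ.2, (σ.1.2 : ℝ) + H984N.ML.qy σ.2⟩ := by
  obtain ⟨v, q⟩ := σ
  cases q <;> simp only [place, H984N.ML.qx, H984N.ML.qy] <;> congr 1 <;> ring

theorem place_ctr {W : ℕ} (hW : 1 ≤ W) (σ : St) :
    dist (place σ) (ctr 0 W (bk W σ.1)) ≤ 3/2 * (W : ℝ) := by
  have hW' : (0 : ℤ) < W := by exact_mod_cast hW
  have hW1 : (1 : ℝ) ≤ W := by exact_mod_cast hW
  have key : ∀ x : ℤ, ∀ o : ℝ, |o| ≤ 1/4 →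
      |((x:ℝ) + o) - W * (((x / (W:ℤ) : ℤ) : ℝ) + 1/2)| ≤ 3/4 * W := by
    intro x o ho
    have a1 : (W : ℤ) * (x / W) ≤ x := Int.mul_ediv_self_le hW'.ne'
    have a2 : x < (W : ℤ) * (x / W) + W := Int.lt_mul_ediv_self_add hW'
    have b1 : (W : ℝ) * ((x / (W:ℤ) : ℤ) : ℝ) ≤ (x:ℝ) := by exact_mod_cast a1
    have b2 : (x:ℝ) < (W : ℝ) * ((x / (W:ℤ) : ℤ) : ℝ) + W := by exact_mod_cast a2
    have := abs_le.mp ho
    rw [abs_le]
    constructor <;> linarith [this.1, this.2]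
  rw [place_eq]
  refine (H984N.ML.dist_le_of (a := 3/4 * (W:ℝ)) (b := 3/4 * (W:ℝ)) ?_ ?_).trans (by linarith)
  · exact key σ.1.1 _ (H984N.ML.qx_le _)
  · have h := key σ.1.2 _ (H984N.ML.qy_le σ.2)
    have e : (ctr 0 W (bk W σ.1)).im = W * (((σ.1.2 / (W:ℤ) : ℤ) : ℝ) + 1/2) := by
      unfold Y994.MC.ctr Y994.MC.bk
      simp only
      ring
    rw [e]
    exact h

/-- Different states have different points, at distance at least `1/2`. -/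
theorem place_far {σ τ : St} (h : σ ≠ τ) : 1/2 ≤ dist (place σ) (place τ) := by
  rw [place_eq, place_eq]
  have key : ∀ (x y : ℤ) (o o' : ℝ), |o - o'| ≤ 1/2 → x ≠ y →
      1/2 ≤ |((x:ℝ) + o) - ((y:ℝ) + o')| := by
    intro x y o o' ho hxy
    have h1 : (1:ℝ) ≤ |((x - y : ℤ) : ℝ)| := by
      rw [← Int.cast_abs]
      exact_mod_cast Int.one_le_abs (sub_ne_zero.mpr hxy)
    have e : ((x:ℝ) + o) - ((y:ℝ) + o') = ((x - y : ℤ) : ℝ) + (o - o') := by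
      push_cast
      ring
    rw [e]
    have h2 := abs_sub_abs_le_abs_add (((x - y : ℤ) : ℝ)) (o - o')
    linarith
  obtain ⟨⟨x, y⟩, q⟩ := σ
  obtain ⟨⟨x', y'⟩, q'⟩ := τ
  by_cases hx : x = x'
  · by_cases hy : y = y'
    · have hq : q ≠ q' := fun hq => h (by rw [hx, hy, hq])
      subst hx hy
      cases q <;> cases q' <;> first
        | exact absurd rfl hq
        | (refine le_trans ?_ (H984N.ML.le_dist_re _ _)
           simp only [H984N.ML.qx]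
           rw [le_abs]
           norm_num
           done)
        | (refine le_trans ?_ (H984N.ML.le_dist_im _ _)
           simp only [H984N.ML.qy]
           rw [le_abs]
           norm_num)
    · exact (key y y' _ _ (H984N.ML.qy_sub q q') hy).trans
        (H984N.ML.le_dist_im ⟨(x:ℝ) + H984N.ML.qx q, (y:ℝ) + H984N.ML.qy q⟩
          ⟨(x':ℝ) + H984N.ML.qx q', (y':ℝ) + H984N.ML.qy q'⟩)
  · exact (key x x' _ _ (H984N.ML.qx_sub q q') hx).trans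
      (H984N.ML.le_dist_re ⟨(x:ℝ) + H984N.ML.qx q, (y:ℝ) + H984N.ML.qy q⟩
          ⟨(x':ℝ) + H984N.ML.qx q', (y':ℝ) + H984N.ML.qy q'⟩)

theorem gam_bdd (ω : Conf) (k l : ℕ) : Bornology.IsBounded (gam ω '' Set.Icc k l) :=
  ((Set.finite_Icc k l).image _).isBounded

theorem sar_small_low (ω : Conf) {r : ℝ} (hr : 1 ≤ r) {k l : ℕ} (hkl : k ≤ l) :
    3/16 * ((l:ℝ) - k + 1) ≤ sar ω r k l := by
  have h1 : volume.real (⋃ i ∈ Finset.Icc k l, Metric.ball (gam ω i) (1/4)) =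
      ∑ i ∈ Finset.Icc k l, volume.real (Metric.ball (gam ω i) (1/4)) := by
    refine measureReal_biUnion_finset (fun i _ j _ hij => ?_) (fun i _ => measurableSet_ball)
      (fun i _ => (Metric.isBounded_ball.measure_lt_top).ne)
    exact Metric.ball_disjoint_ball (by
      have := place_far (path_inj ω hij)
      unfold gam
      linarith)
  have h2 : ⋃ i ∈ Finset.Icc k l, Metric.ball (gam ω i) (1/4) ⊆
      Metric.thickening r (gam ω '' Set.Icc k l) := by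
    intro x hx
    rw [Set.mem_iUnion₂] at hx
    obtain ⟨i, hi, hx⟩ := hx
    rw [mem_Icc] at hi
    rw [Metric.mem_thickening_iff]
    refine ⟨gam ω i, ⟨i, hi, rfl⟩, ?_⟩
    rw [Metric.mem_ball] at hx
    linarith
  have h3 := measureReal_mono h2 (vol_fin (gam_bdd ω k l) r)
  rw [h1] at h3
  refine le_trans ?_ h3
  have h4 : ∀ i ∈ Finset.Icc k l, 3/16 ≤ volume.real (Metric.ball (gam ω i) (1/4)) := by
    intro i _
    rw [vol_ball _ (by norm_num)]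
    have := Real.pi_gt_three
    nlinarith
  calc 3/16 * ((l:ℝ) - k + 1) = ∑ i ∈ Finset.Icc k l, (3/16 : ℝ) := by
        rw [sum_const, Nat.card_Icc, nsmul_eq_mul, Nat.cast_sub (by omega)]
        push_cast
        ring
    _ ≤ _ := sum_le_sum h4

theorem sar_small_up (ω : Conf) {r : ℝ} (hr : 0 ≤ r) {k l : ℕ} (hkl : k ≤ l) :
    sar ω r k l ≤ 4 * r ^ 2 * ((l:ℝ) - k + 1) := by
  have h2 : Metric.thickening r (gam ω '' Set.Icc k l) ⊆
      ⋃ i ∈ Finset.Icc k l, Metric.ball (gam ω i) r := by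
    intro x hx
    rw [Metric.mem_thickening_iff] at hx
    obtain ⟨z, ⟨i, hi, rfl⟩, hd⟩ := hx
    rw [Set.mem_iUnion₂]
    exact ⟨i, mem_Icc.mpr hi, hd⟩
  have h3 : sar ω r k l ≤ volume.real (⋃ i ∈ Finset.Icc k l, Metric.ball (gam ω i) r) := by
    refine measureReal_mono h2 ?_
    refine (lt_of_le_of_lt (measure_biUnion_finset_le _ _) ?_).ne
    rw [ENNReal.sum_lt_top]
    intro q _
    exact Metric.isBounded_ball.measure_lt_top
  refine h3.trans ((measureReal_biUnion_finset_le _ _).trans ?_)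
  have h4 : ∀ i ∈ Finset.Icc k l, volume.real (Metric.ball (gam ω i) r) ≤ 4 * r ^ 2 := by
    intro q _
    rw [vol_ball _ hr]
    have := Real.pi_lt_four
    nlinarith [sq_nonneg r]
  refine (sum_le_sum h4).trans ?_
  rw [sum_const, Nat.card_Icc, nsmul_eq_mul, Nat.cast_sub (by omega)]
  push_cast
  nlinarith

theorem sar_low {ω : Conf} {W : ℕ} (hW : 1 ≤ W) {r : ℝ} (hr : 2 * (W:ℝ) ≤ r) {k l : ℕ} :
    ((vp ω W k l).card : ℝ) * (3 * ((W:ℝ) / 2) ^ 2) ≤ sar ω r k l := by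
  have hWr : (0:ℝ) < W := by exact_mod_cast hW
  refine vol_low (δ := 0) hWr hr _ (gam_bdd ω k l) fun q hq => ?_
  unfold vp at hq
  rw [mem_vset] at hq
  obtain ⟨i, i1, i2, i3⟩ := hq
  refine ⟨gam ω i, ⟨i, ⟨i1, i2⟩, rfl⟩, ?_⟩
  rw [← i3]
  exact place_ctr hW _

theorem sar_up {ω : Conf} {W : ℕ} (hW : 1 ≤ W) {r : ℝ} (hr : 0 ≤ r) {k l : ℕ} :
    sar ω r k l ≤ ((vp ω W k l).card : ℝ) * (4 * (r + 3 * (W:ℝ)) ^ 2) := by
  have hWr : (0:ℝ) < W := by exact_mod_cast hW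
  refine vol_up (δ := 0) hWr hr _ fun z hz => ?_
  obtain ⟨i, ⟨i1, i2⟩, rfl⟩ := hz
  refine ⟨bk W (path ω i).1, ?_, ?_⟩
  · unfold vp
    rw [mem_vset]
    exact ⟨i, i1, i2, rfl⟩
  · refine (place_ctr hW (path ω i)).trans ?_
    linarith

/-- the comparison at one scale -/
theorem piece {ω : Conf} {W : ℕ} (hW : 1 ≤ W) {K : ℝ} (hK : 1 ≤ K) {N0 n : ℕ}
    (hG : GoodP W K N0 n ω) {r : ℝ} (h1 : 2 * (W:ℝ) ≤ r) (h2 : r ≤ 4 * W) {k l : ℕ}
    (hkl : k + 1 ≤ l) (hl : l ≤ n) (hT : 2 * K * (N0 + 9) * r ^ (7/4 : ℝ) ≤ (l:ℝ) - k) :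
    1 / (8 * K) * r ^ (1/4 : ℝ) * ((l:ℝ) - k) ≤ sar ω r k l ∧
      sar ω r k l ≤ 588 * K * r ^ (1/4 : ℝ) * ((l:ℝ) - k) := by
  obtain ⟨g1, g2⟩ := hG k l (by omega) hl
  have hkl' : (k:ℝ) + 1 ≤ l := by exact_mod_cast hkl
  have e0 : ((l - k + 1 : ℕ) : ℝ) = (l:ℝ) - k + 1 := by
    rw [Nat.cast_add, Nat.cast_sub (by omega), Nat.cast_one]
  rw [e0] at g1 g2
  have hWr : (0:ℝ) < W := by exact_mod_cast hW
  have hr0 : 0 < r := by linarith
  have hWp : 0 < (W:ℝ) ^ (7/4 : ℝ) := Real.rpow_pos_of_pos hWr _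
  have hWr4 : 0 < (W:ℝ) ^ (1/4 : ℝ) := Real.rpow_pos_of_pos hWr _
  have hWle : (W:ℝ) ^ (7/4 : ℝ) ≤ r ^ (7/4 : ℝ) :=
    Real.rpow_le_rpow hWr.le (by linarith) (by norm_num)
  have hN0 : (0:ℝ) ≤ N0 := Nat.cast_nonneg _
  have e2 : (W:ℝ) ^ 2 = (W:ℝ) ^ (7/4 : ℝ) * (W:ℝ) ^ (1/4 : ℝ) := by
    rw [← Real.rpow_add hWr, ← Real.rpow_natCast]
    norm_num
  obtain ⟨t, ht⟩ : ∃ t : ℝ, t = (l:ℝ) - k := ⟨_, rfl⟩
  rw [← ht] at g1 g2 hT ⊢
  have ht1 : 1 ≤ t := by linarith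
  have hT2 : 2 * K * (N0 + 9) * (W:ℝ) ^ (7/4 : ℝ) ≤ t :=
    le_trans (mul_le_mul_of_nonneg_left hWle (by positivity)) hT
  obtain ⟨A, hA⟩ : ∃ A : ℝ, A = ((vp ω W k l).card : ℝ) := ⟨_, rfl⟩
  have hA0 : 0 ≤ A := by rw [hA]; exact Nat.cast_nonneg _
  rw [← hA] at g1 g2
  constructor
  · have s1 := sar_low (ω := ω) hW h1 (k := k) (l := l)
    rw [← hA] at s1
    have s2 : t / 2 ≤ (W:ℝ) ^ (7/4 : ℝ) * K * A := by
      have : (W:ℝ) ^ (7/4 : ℝ) * (K * (A + N0)) =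
          (W:ℝ) ^ (7/4 : ℝ) * K * A + (K * N0 * (W:ℝ) ^ (7/4 : ℝ)) := by ring
      rw [this] at g1
      have h3 : 2 * (K * N0 * (W:ℝ) ^ (7/4 : ℝ)) ≤ 2 * K * (N0 + 9) * (W:ℝ) ^ (7/4 : ℝ) := by
        have : 0 ≤ K * (W:ℝ) ^ (7/4 : ℝ) := by positivity
        nlinarith
      linarith
    have s3 : t / 2 * (W:ℝ) ^ (1/4 : ℝ) ≤ K * (A * (W:ℝ) ^ 2) := by
      rw [e2]
      have := mul_le_mul_of_nonneg_right s2 hWr4.le
      linarith
    have s4 : 3/4 * (A * (W:ℝ) ^ 2) ≤ sar ω r k l := by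
      refine le_trans (le_of_eq ?_) s1
      ring
    have s5 : r ^ (1/4 : ℝ) ≤ 2 * (W:ℝ) ^ (1/4 : ℝ) := by
      have h6 : r ^ (1/4 : ℝ) ≤ (16 * (W:ℝ)) ^ (1/4 : ℝ) :=
        Real.rpow_le_rpow hr0.le (by linarith) (by norm_num)
      have e : (16 * (W:ℝ)) ^ (1/4 : ℝ) = 2 * (W:ℝ) ^ (1/4 : ℝ) := by
        rw [Real.mul_rpow (by norm_num) hWr.le]
        congr 1
        rw [show (16:ℝ) = 2 ^ (4:ℝ) by norm_num, ← Real.rpow_mul (by norm_num)]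
        norm_num
      rw [e] at h6
      exact h6
    have s6 : t * r ^ (1/4 : ℝ) ≤ 4 * (K * (A * (W:ℝ) ^ 2)) := by
      have := mul_le_mul_of_nonneg_left s5 (by linarith : (0:ℝ) ≤ t)
      linarith
    have e : 1 / (8 * K) * r ^ (1/4 : ℝ) * t = t * r ^ (1/4 : ℝ) / (8 * K) := by
      field_simp
    rw [e, div_le_iff₀ (by positivity)]
    have s7 := mul_le_mul_of_nonneg_left s4 (by linarith : (0:ℝ) ≤ K)
    have s8 : 0 ≤ K * (A * (W:ℝ) ^ 2) := by positivity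
    nlinarith
  · have s1 := sar_up (ω := ω) hW hr0.le (k := k) (l := l)
    rw [← hA] at s1
    have s2 : 4 * (r + 3 * (W:ℝ)) ^ 2 ≤ 196 * (W:ℝ) ^ 2 := by
      have : (r + 3 * (W:ℝ)) ^ 2 ≤ (7 * (W:ℝ)) ^ 2 :=
        pow_le_pow_left₀ (by positivity) (by linarith) 2
      nlinarith
    have s3 : A * (W:ℝ) ^ (7/4 : ℝ) ≤ 3 * K * t := by
      have h3 := mul_le_mul_of_nonneg_right g2 hWp.le
      have e : (K * ((t + 1) / (W:ℝ) ^ (7/4 : ℝ)) + (N0 + 9)) * (W:ℝ) ^ (7/4 : ℝ) =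
          K * (t + 1) + (N0 + 9) * (W:ℝ) ^ (7/4 : ℝ) := by
        field_simp
      rw [e] at h3
      have h4 : (N0 + 9) * (W:ℝ) ^ (7/4 : ℝ) ≤ t := by
        refine le_trans ?_ hT2
        have : 0 ≤ ((N0:ℝ) + 9) * (W:ℝ) ^ (7/4 : ℝ) := by positivity
        nlinarith
      nlinarith
    have s4 : A * (W:ℝ) ^ 2 ≤ 3 * K * t * (W:ℝ) ^ (1/4 : ℝ) := by
      rw [e2, ← mul_assoc]
      exact mul_le_mul_of_nonneg_right s3 hWr4.le
    have s5 : (W:ℝ) ^ (1/4 : ℝ) ≤ r ^ (1/4 : ℝ) :=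
      Real.rpow_le_rpow hWr.le (by linarith) (by norm_num)
    calc sar ω r k l ≤ A * (4 * (r + 3 * (W:ℝ)) ^ 2) := s1
      _ ≤ A * (196 * (W:ℝ) ^ 2) := mul_le_mul_of_nonneg_left s2 hA0
      _ = 196 * (A * (W:ℝ) ^ 2) := by ring
      _ ≤ 196 * (3 * K * t * (W:ℝ) ^ (1/4 : ℝ)) := by linarith
      _ ≤ 196 * (3 * K * t * r ^ (1/4 : ℝ)) := by
          have := mul_le_mul_of_nonneg_left s5 (show 0 ≤ 3 * K * t by positivity)
          linarith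
      _ = 588 * K * r ^ (1/4 : ℝ) * t := by ring

end Y994.HS
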