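import Pool.Agent.TH992.L.UpH
import Pool.Agent.Y994.MC.UpP
import Pool.Agent.Y994.MC.UpD
import Pool.Agent.H984R4.HN.Couple
import Pool.Agent.H984R4.HN.Step
import Pool.Agent.H984R4.HN.Moments

/-!
Half-plane: the duration of a piece of the path in terms of the visited blocks.
-/

set_option autoImplicit false

namespace Y994.HS

open H974 Finset H342P H984P H984H TH992.T Y994.MC

/-- A connected set of blocks with too many vertices. -/
def HeavyX (x : ℕ → Vtx → Finset Edg → ℝ) (W : ℕ) (K : ℝ) (N0 Nm : ℕ) (q0 : Vtx)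
    (F : Finset Edg) : Prop :=
  ∃ N ∈ range (Nm + 1), ∃ A ∈ TH992.L.AS (2 * (N - 1)) q0, A.card = N ∧
    K * ((max N N0 : ℕ) : ℝ) ≤ ∑ q ∈ A, Yb (1/4) x W (q.1 * W) (q.2 * W) F

theorem heavyX_pr {C0 : ℝ} (hC0 : 0 ≤ C0) : ∃ K : ℝ, 0 < K ∧
    ∀ (S : Finset Edg) (x : ℕ → Vtx → Finset Edg → ℝ), Fam (1/4) 4 C0 (fun _ => (1/2:ℝ)) S x →
    ∀ (W : ℕ), 1 ≤ W → ∀ (N0 Nm : ℕ) (q0 : Vtx),
      Pr (fun _ => (1/2:ℝ)) S (HeavyX x W K N0 Nm q0) ≤ 18 * (1/2) ^ N0 := by
  obtain ⟨M, hM1, hM⟩ := expY (a := 1/4) (C0 := C0) (by norm_num) (by norm_num) 4 hC0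
  have hM0 : 0 < M := by linarith
  refine ⟨18 * Real.log (324 * M), ?_, fun S x hF W hW N0 Nm q0 => ?_⟩
  · have : 0 < Real.log (324 * M) := Real.log_pos (by linarith)
    positivity
  set K := 18 * Real.log (324 * M) with hK
  have step : ∀ N : ℕ, ∀ A ∈ TH992.L.AS (2 * (N - 1)) q0,
      Pr (fun _ => (1/2:ℝ)) S (fun F => A.card = N ∧ K * ((max N N0 : ℕ) : ℝ) ≤
        ∑ q ∈ A, Yb (1/4) x W (q.1 * W) (q.2 * W) F) ≤ 9 * (1/324) ^ (max N N0) := by
    intro N A _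
    by_cases hc : A.card = N
    · have h1 := chernV H984N.two_ok A (fun q => Tb S W (q.1 * W) (q.2 * W))
        (fun q => inter_subset_right) (fun q r h1 h2 h3 => Tb_disjZ hW h1 h2 h3)
        (fun q F => Yb (1/4) x W (q.1 * W) (q.2 * W) F / 2) (fun q F hF' => by
          show Yb (1/4) x W (q.1 * W) (q.2 * W) F / 2 =
            Yb (1/4) x W (q.1 * W) (q.2 * W) (F ∩ _) / 2
          unfold Yb
          rw [← Nb_local hF W _ _ F hF']) hM1
        (fun q => hM _ _ _ hF W _ _ hW) (K / 18 * ((max N N0 : ℕ) : ℝ))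
      refine le_trans (Pr_mono H984N.two_ok fun F _ h => ?_) (h1.trans ?_)
      · have h2 := h.2
        rw [← sum_div]
        linarith
      · have e1 : Real.exp (-(K / 18 * ((max N N0 : ℕ) : ℝ))) = (1 / (324 * M)) ^ (max N N0) := by
          rw [hK]
          have e2 : -(18 * Real.log (324 * M) / 18 * ((max N N0 : ℕ) : ℝ)) =
              ((max N N0 : ℕ) : ℝ) * (-Real.log (324 * M)) := by ring
          rw [e2, Real.exp_nat_mul, Real.exp_neg, Real.exp_log (by positivity), one_div]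
        have e3 : M ^ A.card ≤ M ^ (max N N0) := pow_le_pow_right₀ hM1 (by omega)
        rw [e1]
        refine mul_le_mul_of_nonneg_left ?_ (by norm_num)
        calc (1 / (324 * M)) ^ (max N N0) * M ^ A.card
            ≤ (1 / (324 * M)) ^ (max N N0) * M ^ (max N N0) :=
              mul_le_mul_of_nonneg_left e3 (by positivity)
          _ = (1/324) ^ (max N N0) := by
              rw [← mul_pow]
              congr 1
              field_simp
    · have h0 : Pr (fun _ => (1/2:ℝ)) S (fun F => A.card = N ∧ K * ((max N N0 : ℕ) : ℝ) ≤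
          ∑ q ∈ A, Yb (1/4) x W (q.1 * W) (q.2 * W) F) = 0 := by
        unfold Pr
        rw [Ex_congr (g := fun _ => 0) (fun F _ => ind_not_of (fun h => hc h.1)), Ex_const]
      rw [h0]
      positivity
  unfold HeavyX
  refine (Pr_exists_le H984N.two_ok _ _ _).trans ?_
  have h2 : ∀ N ∈ range (Nm + 1), Pr (fun _ => (1/2:ℝ)) S (fun F =>
      ∃ A ∈ TH992.L.AS (2 * (N - 1)) q0, A.card = N ∧
        K * ((max N N0 : ℕ) : ℝ) ≤ ∑ q ∈ A, Yb (1/4) x W (q.1 * W) (q.2 * W) F) ≤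
          9 * (1/2) ^ N0 * (1/2) ^ N := by
    intro N _
    refine (Pr_exists_le H984N.two_ok _ _ _).trans ?_
    refine (sum_le_card_nsmul _ _ _ (step N)).trans ?_
    rw [nsmul_eq_mul]
    have h3 := AS_card' N q0
    have h4 : ((TH992.L.AS (2 * (N - 1)) q0).card : ℝ) ≤ 81 ^ (max N N0) :=
      h3.trans (pow_le_pow_right₀ (by norm_num) (le_max_left _ _))
    calc ((TH992.L.AS (2 * (N - 1)) q0).card : ℝ) * (9 * (1/324) ^ (max N N0))
        ≤ 81 ^ (max N N0) * (9 * (1/324) ^ (max N N0)) :=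
          mul_le_mul_of_nonneg_right h4 (by positivity)
      _ = 9 * (1/4) ^ (max N N0) := by
          have : (1/4 : ℝ) ^ (max N N0) = 81 ^ (max N N0) * (1/324) ^ (max N N0) := by
            rw [← mul_pow]; norm_num
          rw [this]; ring
      _ ≤ 9 * ((1/2) ^ N0 * (1/2) ^ N) :=
          mul_le_mul_of_nonneg_left (four_max N N0) (by norm_num)
      _ = 9 * (1/2) ^ N0 * (1/2) ^ N := by ring
  refine (sum_le_sum h2).trans ?_
  rw [← mul_sum]
  have h5 := sum_geometric_two_le (Nm + 1)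
  have h6 : (0:ℝ) ≤ 9 * (1/2) ^ N0 := by positivity
  calc 9 * (1/2 : ℝ) ^ N0 * ∑ i ∈ range (Nm + 1), (1/2) ^ i ≤ 9 * (1/2) ^ N0 * 2 :=
        mul_le_mul_of_nonneg_left h5 h6
    _ = 18 * (1/2) ^ N0 := by ring

/-- the blocks visited by the half-plane path between the times `k` and `l` -/
noncomputable def vp (ω : Conf) (W : ℕ) (k l : ℕ) : Finset Vtx :=
  vset (fun t => bk W (path ω t).1) k l

/-- The walk in the box. -/
theorem cpl {ω : Conf} {n : ℕ} {ρ : ℤ} (hn : (n : ℤ) < ρ) {s : ℕ} (hs : s ≤ n) :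
    s + 1 ≤ (bx ρ).len (cut ω ρ) ∧
      (bx ρ).walk (cut ω ρ) ((bx ρ).len (cut ω ρ) - 1 - s) = path ω s := by
  have hρ : 1 ≤ ρ := by omega
  have h0 : (path ω 0).1 = (0, 0) := rfl
  refine couple hρ ω fun j hj => ?_
  have e1 := path_sd ω (Nat.zero_le j)
  rw [h0, det_sd_comm] at e1
  omega

theorem pth_in {ω : Conf} {n : ℕ} {s : ℕ} (hs : s ≤ n) :
    (-(n:ℤ) ≤ (path ω s).1.1 ∧ (path ω s).1.1 ≤ n) ∧ 0 ≤ (path ω s).1.2 ∧ (path ω s).1.2 ≤ n := by
  have hρ : (n:ℤ) < (n:ℤ) + 1 := by omega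
  obtain ⟨-, h2⟩ := cpl (ω := ω) hρ hs
  have h3 := walk_in (bx_ok (ρ := (n:ℤ) + 1) (by omega)) (Couple_cut_sub ω _)
    ((bx ((n:ℤ) + 1)).len (cut ω ((n:ℤ) + 1)) - 1 - s)
  rw [h2] at h3
  have h0 : (path ω 0).1 = (0, 0) := rfl
  have e1 := path_sd ω (Nat.zero_le s)
  rw [h0, det_sd_eq] at e1
  unfold inR bx at h3
  simp only at h3 e1
  omega

/-- The duration of a piece of the path. -/
theorem time_leH {ω : Conf} {n : ℕ} {ρ : ℤ} (hn : (n : ℤ) < ρ) {W : ℕ} (hW : 1 ≤ W)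
    {k l : ℕ} (hl : l ≤ n) (hkl : k ≤ l) :
    ((l - k + 1 : ℕ) : ℝ) ≤ (W : ℝ) ^ (7/4 : ℝ) *
      ∑ q ∈ vp ω W k l, Yb (1/4) (TH992.L.xs (bx ρ)) W (q.1 * W) (q.2 * W) (cut ω ρ) := by
  classical
  have hD := bx_ok (ρ := ρ) (by omega)
  have hF := Couple_cut_sub ω ρ
  set A := vp ω W k l with hA
  set D := bx ρ with hDdef
  set F := cut ω ρ with hFdef
  have hWp : (0 : ℝ) < (W : ℝ) ^ (7/4 : ℝ) := Real.rpow_pos_of_pos (by exact_mod_cast hW) _
  have e0 : (W : ℝ) ^ (7/4 : ℝ) * ∑ q ∈ A, Yb (1/4) (TH992.L.xs D) W (q.1 * W) (q.2 * W) F =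
      ∑ q ∈ A, Nb (TH992.L.xs D) W (q.1 * W) (q.2 * W) F := by
    rw [mul_sum]
    refine sum_congr rfl fun q _ => ?_
    unfold Yb
    have e : (2 - 1/4 : ℝ) = 7/4 := by norm_num
    rw [e, mul_div_cancel₀ _ hWp.ne']
  rw [e0]
  set N := D.len F with hN
  have e1 : ((l - k + 1 : ℕ) : ℝ) = ∑ i ∈ (Finset.Icc k l).image (fun t => N - 1 - t), (1 : ℝ) := by
    rw [sum_image, sum_const, Nat.card_Icc, nsmul_eq_mul, mul_one]
    · congr 1
      omega
    · intro s hs t ht hst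
      rw [Finset.mem_coe, mem_Icc] at hs ht
      have h1 := (cpl (ω := ω) hn (hs.2.trans hl)).1
      have h2 := (cpl (ω := ω) hn (ht.2.trans hl)).1
      have hst' : (bx ρ).len (cut ω ρ) - 1 - s = (bx ρ).len (cut ω ρ) - 1 - t := hst
      omega
  have e2 : ∑ i ∈ (Finset.Icc k l).image (fun t => N - 1 - t), (1 : ℝ) ≤
      ∑ i ∈ Finset.range (D.len F + 1),
        (fun σ : St => if bk W σ.1 ∈ A then (1:ℝ) else 0) (D.walk F i) := by
    have hsub : (Finset.Icc k l).image (fun t => N - 1 - t) ⊆ Finset.range (D.len F + 1) := by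
      intro i hi
      rw [mem_image] at hi
      obtain ⟨t, ht, rfl⟩ := hi
      rw [mem_range]
      omega
    refine le_trans (sum_le_sum fun i hi => ?_) (sum_le_sum_of_subset_of_nonneg hsub
      fun i _ _ => by dsimp only; split_ifs <;> norm_num)
    rw [mem_image] at hi
    obtain ⟨t, ht, rfl⟩ := hi
    rw [mem_Icc] at ht
    have h1 := (cpl (ω := ω) hn (ht.2.trans hl)).2
    have : bk W (D.walk F (N - 1 - t)).1 ∈ A := by
      rw [hN, h1, hA]
      unfold vp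
      rw [mem_vset]
      exact ⟨t, ht.1, ht.2, rfl⟩
    dsimp only
    rw [if_pos this]
  rw [e1]
  refine e2.trans ?_
  rw [Moments_sum hD hF (fun σ : St => if bk W σ.1 ∈ A then (1:ℝ) else 0)]
  unfold Dm.states
  rw [sum_product]
  have e3 : ∑ v ∈ Finset.Icc D.l D.r ×ˢ Finset.Icc 0 D.h, ∑ c ∈ (Finset.univ : Finset Q4),
      ind (D.Vis F (v, c)) * (if bk W ((v, c) : St).1 ∈ A then (1:ℝ) else 0) ≤
      ∑ v ∈ (Finset.Icc D.l D.r ×ˢ Finset.Icc 0 D.h).filter (fun v => bk W v ∈ A),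
        TH992.L.xs D W v F := by
    rw [sum_filter]
    refine sum_le_sum fun v hv => ?_
    rw [mem_product, mem_Icc, mem_Icc] at hv
    by_cases h : bk W v ∈ A
    · rw [if_pos h]
      simp only [h, if_true, mul_one]
      exact TH992.L.xs_vis hD hF W hv
    · rw [if_neg h]
      simp only [h, if_false, mul_zero, sum_const_zero]
      exact le_rfl
  refine e3.trans ?_
  rw [← sum_fiberwise_of_maps_to (s := (Finset.Icc D.l D.r ×ˢ Finset.Icc 0 D.h).filter
    (fun v => bk W v ∈ A)) (t := A) (g := fun v => bk W v)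
    (fun v hv => (mem_filter.mp hv).2)]
  refine sum_le_sum fun q _ => ?_
  unfold Nb
  refine sum_le_sum_of_subset_of_nonneg (fun v hv => ?_) fun v _ _ => TH992.L.xs_nonneg D W v F
  rw [mem_filter] at hv
  rw [← hv.2]
  exact bk_mem hW v

/-- the visited blocks form a connected set -/
theorem vp_AS {ω : Conf} {W : ℕ} (hW : 1 ≤ W) {k l : ℕ} (hkl : k ≤ l) :
    1 ≤ (vp ω W k l).card ∧ vp ω W k l ∈
      TH992.L.AS (2 * ((vp ω W k l).card - 1)) (bk W (path ω k).1) := by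
  have hW' : (1 : ℤ) ≤ W := by exact_mod_cast hW
  exact vset_AS (β := fun t => bk W (path ω t).1)
    (fun r => bk_step hW' ((path_step ω r).trans hW')) hkl

theorem vp_card {ω : Conf} {W : ℕ} {k l n : ℕ} (hl : l ≤ n) : (vp ω W k l).card ≤ n + 1 := by
  classical
  unfold vp vset
  refine card_image_le.trans ?_
  rw [Nat.card_Icc]
  omega

/-- Outside the heavy event the duration is at most a multiple of the number of blocks. -/
theorem up_detH {ω : Conf} {n : ℕ} {ρ : ℤ} (hn : (n : ℤ) < ρ) {W : ℕ} (hW : 1 ≤ W)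
    {K : ℝ} {N0 : ℕ} {k l : ℕ} (hkl : k ≤ l) (hl : l ≤ n)
    (hh : ¬ HeavyX (TH992.L.xs (bx ρ)) W K N0 (n + 1) (bk W (path ω k).1) (cut ω ρ)) :
    ((l - k + 1 : ℕ) : ℝ) ≤ (W : ℝ) ^ (7/4 : ℝ) * (K * ((max (vp ω W k l).card N0 : ℕ) : ℝ)) := by
  have h1 := time_leH (ω := ω) hn hW hl hkl
  obtain ⟨h2, h3⟩ := vp_AS (ω := ω) hW hkl
  have h4 := vp_card (ω := ω) (W := W) (k := k) hl
  refine h1.trans (mul_le_mul_of_nonneg_left ?_ (Real.rpow_nonneg (Nat.cast_nonneg _) _))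
  by_contra hcon
  push Not at hcon
  apply hh
  exact ⟨_, mem_range.mpr (by omega), _, h3, rfl, hcon.le⟩

end Y994.HS
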