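import Pool.Agent.Y994.MC.LowP
import Pool.Agent.Y994.MC.LowD
import Pool.Agent.Y994.HS.HUp

/-!
Half-plane: a piece of the path which visits many blocks has a long duration.
-/

set_option autoImplicit false

namespace Y994.HS

open H974 Finset H342P H984P H984H TH992.L Y994.MC

open Classical in
/-- The path spends a long time near a good block. -/
theorem good_timeH {ω : Conf} {n : ℕ} {ρ W R L w : ℤ} {n0 M : ℕ} (hp : Par R L w W n0)
    (hn : (n : ℤ) + 10 * W < ρ) {q : Vtx}
    (hB : ¬ Bad M R L w W n0 q (cut ω ρ)) {k l τ T : ℕ} (hl : l ≤ n)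
    (h1 : k ≤ τ) (h2 : τ ≤ l) (h3 : k ≤ T) (h4 : T ≤ l) (hτ : bk W (path ω τ).1 = q)
    (hd : W ≤ sd (path ω τ).1 (path ω T).1) :
    M ≤ ((Finset.Icc k l).filter (fun t => sd (bk W (path ω t).1) q ≤ 1)).card := by
  obtain ⟨hR, hRL, hW, hw, hWw⟩ := hp
  have hW1 : 1 ≤ W := by omega
  have hnρ : (n : ℤ) < ρ := by omega
  obtain ⟨⟨p1, p2⟩, p3, p4⟩ := pth_in (ω := ω) (n := n) (s := τ) (by omega)
  have a1 : W * ((path ω τ).1.1 / W) ≤ (path ω τ).1.1 := Int.mul_ediv_self_le (by omega)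
  have a2 : (path ω τ).1.1 < W * ((path ω τ).1.1 / W) + W := Int.lt_mul_ediv_self_add (by omega)
  have a3 : W * ((path ω τ).1.2 / W) ≤ (path ω τ).1.2 := Int.mul_ediv_self_le (by omega)
  have q1 : q.1 * W = W * ((path ω τ).1.1 / W) := by
    rw [← hτ]; unfold Y994.MC.bk; simp only; ring
  have q2 : q.2 * W = W * ((path ω τ).1.2 / W) := by
    rw [← hτ]; unfold Y994.MC.bk; simp only; ring
  -- the interval
  have main : ∀ s e : ℕ, s ≤ e → k ≤ s → e ≤ l → (s ≤ τ ∧ τ ≤ e) →
      W ≤ sd (path ω s).1 (path ω e).1 →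
      (∀ t, s ≤ t → t ≤ e → sd (path ω τ).1 (path ω t).1 ≤ W) →
      M ≤ ((Finset.Icc k l).filter (fun t => sd (bk W (path ω t).1) q ≤ 1)).card := by
    intro s e hse hks hel hτ2 hse2 hnear
    obtain ⟨N, hN⟩ : ∃ N, N = (bx ρ).len (cut ω ρ) := ⟨_, rfl⟩
    have hNT := (cpl (ω := ω) hnρ (show l ≤ n from hl)).1
    have hwk : ∀ t, N - 1 - e ≤ t → t ≤ N - 1 - s → ∃ t', s ≤ t' ∧ t' ≤ e ∧
        (bx ρ).walk (cut ω ρ) t = path ω t' := by
      intro t t1 t2
      refine ⟨N - 1 - t, by omega, by omega, ?_⟩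
      have := (cpl (ω := ω) hnρ (show N - 1 - t ≤ n by omega)).2
      rw [← this, ← hN]
      congr 1
      omega
    have h5 : M ≤ (N - 1 - s) - (N - 1 - e) := by
      refine nofast hR hRL hW hw hWw (q := q) (by omega) (by omega) (by omega) (by omega)
        (Couple_cut_sub ω ρ) hB (by omega) (by omega) ?_ ?_ ?_
      · intro t t1 t2
        obtain ⟨t', t3, t4, t5⟩ := hwk t t1 t2
        rw [t5, ← hτ]
        exact blk_in hW1 (hnear t' t3 t4)
      · refine ⟨N - 1 - τ, by omega, by omega, ?_⟩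
        have := (cpl (ω := ω) hnρ (show τ ≤ n by omega)).2
        rw [← hN] at this
        rw [this, ← hτ]
        rfl
      · have e1 := (cpl (ω := ω) hnρ (show s ≤ n by omega)).2
        have e2 := (cpl (ω := ω) hnρ (show e ≤ n by omega)).2
        rw [← hN] at e1 e2
        rw [e1, e2, det_sd_comm]
        exact hse2
    have h6 : Finset.Icc s e ⊆
        (Finset.Icc k l).filter (fun t => sd (bk W (path ω t).1) q ≤ 1) := by
      intro t ht
      rw [mem_Icc] at ht
      rw [mem_filter, mem_Icc]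
      refine ⟨by omega, ?_⟩
      rw [← hτ, det_sd_comm]
      exact blk_step hW1 (hnear t ht.1 ht.2)
    have h7 := card_le_card h6
    rw [Nat.card_Icc] at h7
    omega
  rcases le_total τ T with hT | hT
  · obtain ⟨i, e1, e2, e3, e4⟩ := det_first (fun s => (path ω s).1)
      (fun s => path_step ω s) hT hd
    refine main τ i e1 h1 (by omega) ⟨le_rfl, e1⟩ e3 (fun t t1 t2 => ?_)
    have := e4 t t1 t2
    omega
  · obtain ⟨i, e1, e2, e3, e4⟩ := det_last (fun s => (path ω s).1)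
      (fun s => path_step ω s) hT hd
    refine main i τ e2 (by omega) h2 ⟨e2, le_rfl⟩ (by rw [det_sd_comm]; exact e3)
      (fun t t1 t2 => ?_)
    have := e4 t t1 t2
    omega

theorem vp_Lam {ω : Conf} {n : ℕ} {ρ : ℤ} {W : ℕ} (hW : 1 ≤ W) (hn : (n : ℤ) + 10 * W < ρ)
    {k l : ℕ} (hl : l ≤ n) {q : Vtx} (hq : q ∈ vp ω W k l) :
    TH992.L.Lam W q ⊆ (bx ρ).edges := by
  unfold vp at hq
  rw [mem_vset] at hq
  obtain ⟨t, t1, t2, rfl⟩ := hq
  have hW' : (0:ℤ) < W := by exact_mod_cast hW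
  obtain ⟨⟨p1, p2⟩, p3, p4⟩ := pth_in (ω := ω) (n := n) (s := t) (by omega)
  have a1 : (W:ℤ) * ((path ω t).1.1 / W) ≤ (path ω t).1.1 := Int.mul_ediv_self_le (by omega)
  have a2 : (path ω t).1.1 < (W:ℤ) * ((path ω t).1.1 / W) + W :=
    Int.lt_mul_ediv_self_add (by omega)
  have a3 : (W:ℤ) * ((path ω t).1.2 / W) ≤ (path ω t).1.2 := Int.mul_ediv_self_le (by omega)
  unfold TH992.L.Lam Dm.edges bx Y994.MC.bk
  simp only
  rw [mul_comm ((path ω t).1.1 / (W:ℤ)), mul_comm ((path ω t).1.2 / (W:ℤ))]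
  exact RE_subset (by omega) (by omega) (by omega) (by omega)

open Classical in
/-- Outside the exceptional events the duration is at least a multiple of the number of blocks. -/
theorem low_detH {ω : Conf} {n : ℕ} {ρ : ℤ} {W : ℕ} {R L w : ℤ}
    {n0 M N0 : ℕ} (hp : Par R L w W n0) (hn : (n : ℤ) + 10 * W < ρ) {k l : ℕ} (hkl : k ≤ l)
    (hl : l ≤ n)
    (hh : ¬ Holes (bx ρ).edges M R L w W n0 N0 (n + 1) (bk W (path ω k).1) (cut ω ρ))
    (hA : 10 ≤ (vp ω W k l).card) :
    3 * (M * (vp ω W k l).card) ≤ 36 * (l + 1 - k) + M * N0 := by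
  have hW' : (1 : ℤ) ≤ W := by
    obtain ⟨hR, hRL, hW, hw, hWw⟩ := hp
    omega
  have hW : 1 ≤ W := by exact_mod_cast hW'
  set A := vp ω W k l with hAdef
  set Bd := A.filter (fun q => Bad M R L w W n0 q (cut ω ρ)) with hBd
  set G := A.filter (fun q => ¬ Bad M R L w W n0 q (cut ω ρ)) with hG
  have c2 : Bd.card + G.card = A.card := card_filter_add_card_filter_not _
  have c4 : 4 * Bd.card ≤ max A.card N0 := by
    obtain ⟨c, hc⟩ := pigeon (le_refl Bd.card)
    by_contra hcon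
    push Not at hcon
    apply hh
    obtain ⟨h2, h3⟩ := vp_AS (ω := ω) hW hkl
    have h4 := vp_card (ω := ω) (W := W) (k := k) hl
    rw [← hAdef] at h2 h3 h4
    refine ⟨A.card, mem_range.mpr ?_, A, h3, rfl, Bd.filter (fun q => cls q = c), ?_,
      ⟨?_, ?_, ?_⟩, ?_⟩
    · omega
    · rw [mem_powerset]
      intro q hq
      exact (mem_filter.mp (mem_filter.mp hq).1).1
    · intro q hq r hr
      rw [(mem_filter.mp hq).2, (mem_filter.mp hr).2]
    · intro q hq
      exact vp_Lam hW hn hl (mem_filter.mp (mem_filter.mp hq).1).1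
    · omega
    · intro q hq
      exact (mem_filter.mp (mem_filter.mp hq).1).2
  have c5 : G.card * M ≤ (l + 1 - k) * 9 := by
    refine sum_time (β := fun t => bk W (path ω t).1) fun q hq => ?_
    rw [hG, mem_filter] at hq
    obtain ⟨hqA, hqB⟩ := hq
    have hqA' := hqA
    rw [hAdef] at hqA'
    unfold vp at hqA'
    rw [mem_vset] at hqA'
    obtain ⟨τ, t1, t2, t3⟩ := hqA'
    -- a far block
    obtain ⟨q', hq', hne⟩ : ∃ q' ∈ A, q' ∉ nb9 q := by
      by_contra hcon
      push Not at hcon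
      have := card_le_card (fun x hx => hcon x hx : A ⊆ nb9 q)
      rw [card_nb9] at this
      omega
    rw [hAdef] at hq'
    unfold vp at hq'
    rw [mem_vset] at hq'
    obtain ⟨T, u1, u2, u3⟩ := hq'
    have hfar : W ≤ sd (path ω τ).1 (path ω T).1 := by
      by_contra hcon
      push Not at hcon
      apply hne
      rw [mem_nb9]
      have := blk_step hW' hcon.le
      have t3' : blk W (path ω τ).1 = q := t3
      have u3' : blk W (path ω T).1 = q' := u3
      rw [t3', u3'] at this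
      exact this
    exact good_timeH hp hn hqB hl t1 t2 u1 u2 t3 hfar
  have c7 : 3 * A.card ≤ 4 * G.card + N0 := by omega
  calc 3 * (M * A.card) = M * (3 * A.card) := by ring
    _ ≤ M * (4 * G.card + N0) := Nat.mul_le_mul_left M c7
    _ = 4 * (G.card * M) + M * N0 := by ring
    _ ≤ 36 * (l + 1 - k) + M * N0 := by omega

end Y994.HS
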