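import Pool.Agent.Y994.HS.HLow
import Pool.Agent.H984R4.HN.Perc

/-!
Half-plane: comparison of the duration and the number of visited blocks, at one scale.
-/

set_option autoImplicit false

namespace Y994.HS

open H974 Finset H342P H984P H984H TH992.L Y994.MC MeasureTheory

/-- The duration and the number of visited blocks are comparable for all pieces of the first `n`
steps. -/
def GoodP (W : ℕ) (K : ℝ) (N0 n : ℕ) (ω : Conf) : Prop :=
  ∀ k l : ℕ, k ≤ l → l ≤ n →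
    ((l - k + 1 : ℕ) : ℝ) ≤ (W : ℝ) ^ (7/4 : ℝ) * (K * (((vp ω W k l).card : ℝ) + N0)) ∧
    ((vp ω W k l).card : ℝ) ≤ K * (((l - k + 1 : ℕ) : ℝ) / (W : ℝ) ^ (7/4 : ℝ)) + (N0 + 9)

/-- The same for the pieces which start in a block of `S`. -/
def GoodPS (S : Finset Vtx) (W : ℕ) (K : ℝ) (N0 n : ℕ) (ω : Conf) : Prop :=
  ∀ k l : ℕ, k ≤ l → l ≤ n → bk W (path ω k).1 ∈ S →
    ((l - k + 1 : ℕ) : ℝ) ≤ (W : ℝ) ^ (7/4 : ℝ) * (K * (((vp ω W k l).card : ℝ) + N0)) ∧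
    ((vp ω W k l).card : ℝ) ≤ K * (((l - k + 1 : ℕ) : ℝ) / (W : ℝ) ^ (7/4 : ℝ)) + (N0 + 9)

/-- The blocks near the path. -/
noncomputable def SP (n : ℕ) : Finset Vtx :=
  Finset.Icc (-(n : ℤ)) n ×ˢ Finset.Icc (0 : ℤ) n

theorem bk_SP {ω : Conf} {n : ℕ} {W : ℕ} (hW : 1 ≤ W) {k : ℕ} (hk : k ≤ n) :
    bk W (path ω k).1 ∈ SP n := by
  have hW' : (0:ℤ) < W := by exact_mod_cast hW
  obtain ⟨⟨p1, p2⟩, p3, p4⟩ := pth_in (ω := ω) (n := n) (s := k) hk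
  unfold SP Y994.MC.bk
  rw [mem_product, mem_Icc, mem_Icc]
  have hd : ∀ x : ℤ, 0 ≤ x → x ≤ n → x / (W:ℤ) ≤ n := fun x h0 h1 =>
    (Int.ediv_le_self _ h0).trans h1
  refine ⟨⟨?_, ?_⟩, Int.ediv_nonneg p3 hW'.le, hd _ p3 p4⟩
  · rw [Int.le_ediv_iff_mul_le hW']
    nlinarith
  · rcases le_or_gt 0 (path ω k).1.1 with h | h
    · exact hd _ h p2
    · have := Int.ediv_neg_of_neg_of_pos h hW'
      omega

theorem SP_card (n : ℕ) : ((SP n).card : ℝ) ≤ 2 * ((n : ℝ) + 1) ^ 2 := by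
  unfold SP
  rw [card_product, Int.card_Icc, Int.card_Icc]
  have e1 : ((n:ℤ) + 1 - -(n:ℤ)).toNat = 2 * n + 1 := by omega
  have e2 : ((n:ℤ) + 1 - 0).toNat = n + 1 := by omega
  rw [e1, e2]
  push_cast
  have : (0:ℝ) ≤ n := Nat.cast_nonneg n
  nlinarith

theorem goodPS_pr {c C : ℝ} (hc : 0 < c) (hC : 0 < C) (hL : LowA c (1/4)) (hU : TwoUp C (1/4)) :
    ∃ (Γ : ℕ) (K : ℝ), 1 ≤ Γ ∧ 0 < K ∧ ∀ a : ℕ, 5 ≤ a → ∀ (S : Finset Vtx) (N0 n : ℕ),
      ∃ A : Set Conf, {ω | ¬ GoodPS S (Γ * a) K N0 n ω} ⊆ A ∧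
        perc.real A ≤ (S.card : ℝ) * (20 * (1/2) ^ N0) := by
  obtain ⟨Γ, n0, c', hΓ, hc', hbad⟩ := bad_pr hc hC hL hU (η := (1/648) ^ 196) (by positivity)
  obtain ⟨K1, hK1, hheavy⟩ := heavyX_pr (C0 := TH992.L.CC C) (by unfold TH992.L.CC; positivity)
  have hΓr : (0:ℝ) < Γ := by exact_mod_cast hΓ
  refine ⟨Γ, max K1 (12 * (Γ:ℝ) ^ (7/4 : ℝ) / c'), hΓ, lt_max_of_lt_left hK1,
    fun a ha S N0 n => ?_⟩
  set K := max K1 (12 * (Γ:ℝ) ^ (7/4 : ℝ) / c') with hK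
  obtain ⟨R, L, w, W', hp, hW', hpr⟩ := hbad a ha
  set M := ⌈c' * (a:ℝ) ^ (7/4 : ℝ)⌉₊ with hM
  set W : ℕ := Γ * a with hWdef
  have hWW : W' = (W : ℤ) := by rw [hW', hWdef]; push_cast; ring
  subst hWW
  have hW1 : 1 ≤ W := Nat.mul_pos hΓ (by omega)
  have har : (0:ℝ) < a := by
    have : 0 < a := by omega
    exact_mod_cast this
  have hWr : (0:ℝ) < (W:ℝ) := by exact_mod_cast hW1
  have hWp : (0:ℝ) < (W:ℝ) ^ (7/4 : ℝ) := Real.rpow_pos_of_pos hWr _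
  obtain ⟨ρ, hρ⟩ : ∃ ρ : ℤ, ρ = (n : ℤ) + 10 * W + 1 := ⟨_, rfl⟩
  have hn : (n : ℤ) + 10 * W < ρ := by omega
  have hnρ : (n : ℤ) < ρ := by omega
  refine ⟨{ω | (fun F => ∃ q ∈ S, HeavyX (TH992.L.xs (bx ρ)) W K1 N0 (n + 1) q F ∨
      Holes (bx ρ).edges M R L w W n0 N0 (n + 1) q F) (cut ω ρ)}, ?_, ?_⟩
  · intro ω hnot
    by_contra hcon
    simp only [Set.mem_ofPred_eq] at hcon hnot
    push Not at hcon
    apply hnot
    intro k l hkl hl hkS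
    obtain ⟨hn1, hn2⟩ := hcon _ hkS
    constructor
    · have h1 := up_detH hnρ hW1 (K := K1) (N0 := N0) hkl hl hn1
      refine h1.trans (mul_le_mul_of_nonneg_left ?_ hWp.le)
      have h2 : ((max (vp ω W k l).card N0 : ℕ) : ℝ) ≤ ((vp ω W k l).card : ℝ) + N0 := by
        push_cast
        exact max_le (by linarith [(Nat.cast_nonneg N0 : (0:ℝ) ≤ N0)])
          (by linarith [(Nat.cast_nonneg (vp ω W k l).card : (0:ℝ) ≤ _)])
      calc K1 * ((max (vp ω W k l).card N0 : ℕ) : ℝ) ≤ K1 * (((vp ω W k l).card : ℝ) + N0) :=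
            mul_le_mul_of_nonneg_left h2 hK1.le
        _ ≤ K * (((vp ω W k l).card : ℝ) + N0) :=
            mul_le_mul_of_nonneg_right (le_max_left _ _) (by positivity)
    · have hpos : 0 ≤ K * (((l - k + 1 : ℕ) : ℝ) / (W : ℝ) ^ (7/4 : ℝ)) := by
        have : 0 < K := lt_max_of_lt_left hK1
        positivity
      have hN00 : (0:ℝ) ≤ (N0 : ℝ) := Nat.cast_nonneg _
      by_cases hA : 10 ≤ (vp ω W k l).card
      · have h1 := low_detH hp hn hkl hl hn2 hA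
        have hMr : c' * (a:ℝ) ^ (7/4 : ℝ) ≤ (M:ℝ) := Nat.le_ceil _
        have hap : (0:ℝ) < (a:ℝ) ^ (7/4 : ℝ) := Real.rpow_pos_of_pos har _
        have hM0 : (0:ℝ) < (M:ℝ) := lt_of_lt_of_le (by positivity) hMr
        have h2 : 3 * ((M:ℝ) * ((vp ω W k l).card : ℝ)) ≤
            36 * ((l - k + 1 : ℕ) : ℝ) + M * N0 := by
          have e : l + 1 - k = l - k + 1 := by omega
          rw [e] at h1
          exact_mod_cast h1
        have h3 : ((vp ω W k l).card : ℝ) ≤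
            12 * ((l - k + 1 : ℕ) : ℝ) / M + N0 / 3 := by
          have h4 : ((vp ω W k l).card : ℝ) =
              3 * ((M:ℝ) * ((vp ω W k l).card : ℝ)) / (3 * M) := by
            field_simp
          have h5 : 12 * ((l - k + 1 : ℕ) : ℝ) / M + N0 / 3 =
              (36 * ((l - k + 1 : ℕ) : ℝ) + M * N0) / (3 * M) := by
            field_simp
            ring
          rw [h4, h5]
          exact div_le_div_of_nonneg_right h2 (by positivity)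
        have h6 : 12 * ((l - k + 1 : ℕ) : ℝ) / M ≤
            K * (((l - k + 1 : ℕ) : ℝ) / (W : ℝ) ^ (7/4 : ℝ)) := by
          have e1 : (W : ℝ) ^ (7/4 : ℝ) = (Γ:ℝ) ^ (7/4 : ℝ) * (a:ℝ) ^ (7/4 : ℝ) := by
            rw [hWdef]
            push_cast
            exact Real.mul_rpow hΓr.le har.le
          have hΓp : (0:ℝ) < (Γ:ℝ) ^ (7/4 : ℝ) := Real.rpow_pos_of_pos hΓr _
          have h7 : 12 * ((l - k + 1 : ℕ) : ℝ) / M ≤
              12 * ((l - k + 1 : ℕ) : ℝ) / (c' * (a:ℝ) ^ (7/4 : ℝ)) :=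
            div_le_div_of_nonneg_left (by positivity) (by positivity) hMr
          have h8 : 12 * ((l - k + 1 : ℕ) : ℝ) / (c' * (a:ℝ) ^ (7/4 : ℝ)) =
              (12 * (Γ:ℝ) ^ (7/4 : ℝ) / c') * (((l - k + 1 : ℕ) : ℝ) / (W : ℝ) ^ (7/4 : ℝ)) := by
            rw [e1]
            field_simp
          refine h7.trans ?_
          rw [h8]
          exact mul_le_mul_of_nonneg_right (le_max_right _ _) (by positivity)
        linarith
      · have h1 : ((vp ω W k l).card : ℝ) ≤ 9 := by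
          have : (vp ω W k l).card ≤ 9 := by omega
          exact_mod_cast this
        linarith
  · refine (perc_cut ρ (fun F => ∃ q ∈ S, HeavyX (TH992.L.xs (bx ρ)) W K1 N0 (n + 1) q F ∨
      Holes (bx ρ).edges M R L w W n0 N0 (n + 1) q F)).le.trans ?_
    refine (Pr_exists_le H984N.two_ok _ _ _).trans ?_
    refine (sum_le_card_nsmul _ _ (20 * (1/2) ^ N0) fun q _ => ?_).trans ?_
    · refine (Pr_or_le H984N.two_ok _ _ _).trans ?_
      have h1 := hheavy (bx ρ).edges (TH992.L.xs (bx ρ)) (TH992.L.xs_fam hC hU (bx ρ)) W hW1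
        N0 (n + 1) q
      have h2 := holes_pr (S := (bx ρ).edges) hp (fun q hq => hpr q (bx ρ).edges hq) N0 (n + 1) q
      linarith
    · rw [nsmul_eq_mul]

theorem goodP_pr {c C : ℝ} (hc : 0 < c) (hC : 0 < C) (hL : LowA c (1/4)) (hU : TwoUp C (1/4)) :
    ∃ (Γ : ℕ) (K : ℝ), 1 ≤ Γ ∧ 0 < K ∧ ∀ a : ℕ, 5 ≤ a → ∀ N0 n : ℕ,
      ∃ A : Set Conf, {ω | ¬ GoodP (Γ * a) K N0 n ω} ⊆ A ∧
        perc.real A ≤ 40 * ((n : ℝ) + 1) ^ 2 * (1/2) ^ N0 := by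
  obtain ⟨Γ, K, hΓ, hK, h⟩ := goodPS_pr hc hC hL hU
  refine ⟨Γ, K, hΓ, hK, fun a ha N0 n => ?_⟩
  obtain ⟨A, hA1, hA2⟩ := h a ha (SP n) N0 n
  have hW1 : 1 ≤ Γ * a := Nat.mul_pos hΓ (by omega)
  refine ⟨A, fun ω hω => hA1 ?_, hA2.trans ?_⟩
  · intro hS
    apply hω
    intro k l hkl hl
    exact hS k l hkl hl (bk_SP hW1 (hkl.trans hl))
  · have h1 := SP_card n
    have h2 : (0:ℝ) ≤ 20 * (1/2) ^ N0 := by positivity
    have := mul_le_mul_of_nonneg_right h1 h2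
    nlinarith

end Y994.HS
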